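import Pool.Agent.H849.PW.Main

/-!
# Positivity of the eigenvalues
-/

set_option autoImplicit false
set_option linter.unusedSectionVars false

open Module TensorProduct

namespace Pool.Agent.H849.PW

open Pool.Agent.Y143 Pool.Agent.H849.SF Pool.Agent.H849.NC

universe u v

variable {Ω : Type u} [Field Ω] [CharZero Ω]

section TotallyPositive

lemma tp_iff {x : Ω} (hx : IsAlgebraic ℚ x) : IsTotallyPositive x ↔
    ∀ ψ : algebraicClosure ℚ Ω →ₐ[ℚ] ℂ, ∃ r : ℝ, 0 < r ∧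
      ψ ⟨x, mem_algebraicClosure_iff.2 hx⟩ = r := by
  have halg : Algebra.IsAlgebraic ℚ (algebraicClosure ℚ Ω) := algebraicClosure.isAlgebraic ℚ Ω
  set x' : algebraicClosure ℚ Ω := ⟨x, mem_algebraicClosure_iff.2 hx⟩ with hx'
  have hmin : minpoly ℚ x = minpoly ℚ x' :=
    minpoly.algebraMap_eq (B := algebraicClosure ℚ Ω) (algebraMap (algebraicClosure ℚ Ω) Ω).injective x'
  constructor
  · rintro ⟨-, h⟩ ψ
    refine h (ψ x') ?_
    rw [hmin, Polynomial.aeval_algHom_apply, minpoly.aeval, map_zero]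
  · intro h
    refine ⟨hx, fun z hz => ?_⟩
    have h1 : z ∈ (minpoly ℚ x').rootSet ℂ := by
      rw [Polynomial.mem_rootSet]
      refine ⟨minpoly.ne_zero (Algebra.IsIntegral.isIntegral x'), ?_⟩
      rwa [← hmin]
    rw [← Algebra.IsAlgebraic.range_eval_eq_rootSet_minpoly] at h1
    obtain ⟨ψ, hψ⟩ := h1
    obtain ⟨r, hr, hr'⟩ := h ψ
    exact ⟨r, hr, by rw [← hr', ← hψ]⟩

lemma tp_zero : ¬ IsTotallyPositive (0 : Ω) := by
  rintro ⟨-, h⟩
  obtain ⟨r, hr, h0⟩ := h 0 (by rw [minpoly.zero, Polynomial.aeval_X])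
  exact hr.ne (by exact_mod_cast h0)

lemma tp_add {x y : Ω} (hx : IsTotallyPositive x) (hy : IsTotallyPositive y) :
    IsTotallyPositive (x + y) := by
  rw [tp_iff (hx.1.add hy.1)]
  intro ψ
  obtain ⟨r, hr, h1⟩ := (tp_iff hx.1).1 hx ψ
  obtain ⟨s, hs, h2⟩ := (tp_iff hy.1).1 hy ψ
  refine ⟨r + s, add_pos hr hs, ?_⟩
  push_cast
  rw [← h1, ← h2, ← map_add]
  rfl

lemma tp_mul {c : ℚ} (hc : 0 < c) {x : Ω} (hx : IsTotallyPositive x) :
    IsTotallyPositive ((c : Ω) * x) := by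
  have halg : IsAlgebraic ℚ ((c : Ω) * x) := by
    have h1 : IsAlgebraic ℚ (c : Ω) := by
      rw [← eq_ratCast (algebraMap ℚ Ω) c]
      exact isAlgebraic_algebraMap c
    exact h1.mul hx.1
  rw [tp_iff halg]
  intro ψ
  obtain ⟨r, hr, h1⟩ := (tp_iff hx.1).1 hx ψ
  refine ⟨c * r, mul_pos (by exact_mod_cast hc) hr, ?_⟩
  push_cast
  rw [← h1, ← eq_ratCast (algebraMap ℚ ℂ) c, ← AlgHom.commutes ψ c, ← map_mul]
  congr 1

end TotallyPositive

section Weight

variable {E : Type*} [AddCommGroup E] [Module Ω E] {h₁ N N' h₂ L L' d : Module.End Ω E}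

lemma shift {h g : Module.End Ω E} {k : ℤ} (hg : h * g - g * h = (k : Ω) • g) {c : ℤ} {x : E}
    (hx : h x = (c : Ω) • x) : h (g x) = ((c + k : ℤ) : Ω) • g x := by
  have h1 := LinearMap.congr_fun hg x
  rw [LinearMap.sub_apply, Module.End.mul_apply, Module.End.mul_apply, hx, map_smul,
    LinearMap.smul_apply, sub_eq_iff_eq_add] at h1
  rw [h1]
  push_cast
  rw [add_smul, add_comm]

lemma h₁_cod [FiniteDimensional Ω E] (W : IsWeightComplex h₁ N N' h₂ L L' d) :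
    h₁ * cod N' L' d - cod N' L' d * h₁ = -cod N' L' d := by
  have ha := W.N'_cod
  have hb' := W.N_cod
  have hδ : cod N' L' d = N' * (L' * d - d * L') - (L' * d - d * L') * N' := rfl
  rw [← W.t₁.ef]
  generalize cod N' L' d = δ at *
  generalize L' * d - d * L' = v' at *
  linear_combination (norm := noncomm_ring) N * ha + hb' * N' - N' * hb' - ha * N + hδ

lemma h₂_cod [FiniteDimensional Ω E] (W : IsWeightComplex h₁ N N' h₂ L L' d) :
    h₂ * cod N' L' d - cod N' L' d * h₂ = -cod N' L' d := by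
  have ha := W.L'_cod
  have hb' := W.L_cod
  have hδ := W.cod_eq
  rw [← W.t₂.ef]
  generalize cod N' L' d = δ at *
  generalize N' * d - d * N' = v' at *
  linear_combination (norm := noncomm_ring) L * ha + hb' * L' - L' * hb' - ha * L + hδ

/-- An eigenvector of `Δ` of weights `r` and `j`. -/
def Eig (h₁ N' h₂ L' d : Module.End Ω E) (μ : Ω) (r j : ℤ) : Prop :=
  ∃ x : E, x ≠ 0 ∧ lap N' L' d x = μ • x ∧ h₁ x = (r : Ω) • x ∧ h₂ x = (j : Ω) • x

/-- The lowest eigenvectors, if all the weights satisfy `|r| + |j| ≤ 2`. -/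
lemma exists_low [FiniteDimensional Ω E] (W : IsWeightComplex h₁ N N' h₂ L L' d) {μ : Ω}
    (hμ : μ ≠ 0) {n : ℕ} (hn : n ≤ 2)
    (hb : ∀ r j, Eig h₁ N' h₂ L' d μ r j → |r| + |j| ≤ n)
    (hex : ∃ r j, Eig h₁ N' h₂ L' d μ r j) :
    ∃ r j, Eig h₁ N' h₂ L' d μ r j ∧
      ((r = 0 ∧ j + n = 0) ∨ (r = 1 ∧ j + n = 1) ∨ (r = 0 ∧ j + n = 1)) := by
  -- the smallest `j`
  obtain ⟨j, ⟨r₁, hj⟩, hjmin⟩ := Int.exists_least_of_bdd
    (P := fun j => ∃ r, Eig h₁ N' h₂ L' d μ r j) ⟨-n, fun j ⟨r, h⟩ => by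
      have h1 := hb r j h
      have h2 := abs_nonneg r
      have h3 := neg_abs_le j
      omega⟩ (by obtain ⟨r, j, h⟩ := hex; exact ⟨j, r, h⟩)
  -- the largest `r`
  obtain ⟨r, hr, hrmax⟩ := Int.exists_greatest_of_bdd
    (P := fun r => Eig h₁ N' h₂ L' d μ r j) ⟨n, fun r h => by
      have h1 := hb r j h
      have h2 := abs_nonneg j
      have h3 := le_abs_self r
      omega⟩ ⟨r₁, hj⟩
  have hr' := hr
  obtain ⟨x, hx0, hx, hx₁, hx₂⟩ := hr'
  have hcomm : ∀ {g : Module.End Ω E}, Commute g (lap N' L' d) → ∀ {y : E},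
      lap N' L' d y = μ • y → lap N' L' d (g y) = μ • g y := by
    intro g hg y hy
    rw [← apply_eq hg.eq, hy, map_smul]
  -- `r` is nonnegative
  have hr0 : 0 ≤ r := by
    by_contra hneg
    obtain ⟨k, hk⟩ := Int.eq_ofNat_of_zero_le (show 0 ≤ -r by omega)
    have hx₁' : h₁ x = (-(k : Ω)) • x := by
      rw [hx₁, show r = -(k : ℤ) by omega]
      push_cast
      rfl
    have h1 : (N ^ k) x ≠ 0 := fun h => hx0 (W.t₁.inj k hx₁' h)
    have h2 := hrmax (k : ℤ) ⟨(N ^ k) x, h1, hcomm (W.N_lap.pow_left k) hx, by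
      rw [W.t₁.h_pow hx₁' k]
      congr 1
      push_cast
      ring, by
      rw [← pow_apply_eq (show N * h₂ = h₂ * N from W.h₂N.symm), hx₂, map_smul]⟩
    omega
  -- `j` and `j + 1` are not positive
  have hpos : ∀ i s, 0 < i → Eig h₁ N' h₂ L' d μ s i → j ≤ -i := by
    rintro i s hi ⟨y, hy0, hy, hy₁, hy₂⟩
    obtain ⟨k, rfl⟩ := Int.eq_ofNat_of_zero_le hi.le
    have h1 : (L' ^ k) y ≠ 0 := fun h => hy0 (W.t₂.symm.inj k (by
      rw [LinearMap.neg_apply, hy₂, neg_smul]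
      push_cast
      rfl) h)
    refine hjmin (-(k : ℤ)) ⟨s, (L' ^ k) y, h1, hcomm (W.L'_lap.pow_left k) hy, ?_, ?_⟩
    · rw [← pow_apply_eq (show L' * h₁ = h₁ * L' from W.h₁L'.symm), hy₁, map_smul]
    · rw [W.t₂.h_powf hy₂ k]
      congr 1
      push_cast
      ring
  -- `δ x = 0`
  have hδ : cod N' L' d x = 0 := by
    by_contra hne
    have h1 := hjmin (j + -1) ⟨r + -1, cod N' L' d x, hne, hcomm W.cod_lap hx,
      shift (by rw [h₁_cod W]; simp) hx₁, shift (by rw [h₂_cod W]; simp) hx₂⟩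
    omega
  have hd : d x ≠ 0 := by
    intro h
    apply hx0
    have h1 : lap N' L' d x = d (cod N' L' d x) + cod N' L' d (d x) := rfl
    rw [hδ, h, map_zero, map_zero, add_zero, hx] at h1
    exact (smul_eq_zero.1 h1).resolve_left hμ
  have hup : Eig h₁ N' h₂ L' d μ (r + 1) (j + 1) :=
    ⟨d x, hd, hcomm W.d_lap hx, shift (by rw [W.h₁d]; simp) hx₁, shift (by rw [W.h₂d]; simp) hx₂⟩
  have hjneg : j ≤ -1 := by
    by_contra hcon
    have := hpos (j + 1) (r + 1) (by omega) hup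
    omega
  have h1 := hb _ _ hup
  have h2 := hb _ _ hr
  rw [abs_of_nonneg (show 0 ≤ r + 1 by omega), abs_of_nonpos (show j + 1 ≤ 0 by omega)] at h1
  rw [abs_of_nonneg hr0, abs_of_nonpos (show j ≤ 0 by omega)] at h2
  exact ⟨r, j, hr, by omega⟩

end Weight

/-- The eigenvalues for curves and surfaces. -/
theorem Factor.IsSurface.isDefinite {A : Factor.{u, v} Ω} {e : Ω} (hA : A.IsSurface e) :
    A.IsDefinite e := by
  obtain ⟨hn, h00, h10, h01⟩ := hA
  intro μ hμ hμ0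
  have := A.isTerm.finite
  have W := weight_polarization A.isTerm A.graded A.dual
  obtain ⟨x, hx⟩ := hμ.exists_hasEigenvector
  have hΔ : ∀ (p : ℤ × ℤ) y, y ∈ A.T.gr p.1 p.2 → A.laplace y ∈ A.T.gr (id p).1 (id p).2 := by
    intro p y hy
    have hc₁ : A.T.col (A.laplace y) = A.laplace (A.T.col y) := apply_eq W.h₁_lap.eq y
    have hc₂ : A.P.deg (A.laplace y) = A.laplace (A.P.deg y) := apply_eq W.h₂_lap.eq y
    have h1 : A.T.col (A.laplace y) = (p.1 : Ω) • A.laplace y := by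
      rw [hc₁, A.isTerm.col_gr _ _ _ hy, map_smul]
    have h2 : A.P.deg (A.laplace y) = ((p.1 + p.2 - A.n : ℤ) : Ω) • A.laplace y := by
      rw [hc₂, A.graded.deg_gr _ _ _ hy, map_smul]
    exact WeightTerm.gr_cast rfl (by simp) (mem_gr A.isTerm A.graded h1 h2)
  obtain ⟨p, hp⟩ : ∃ p, WeightTerm.pr A.isTerm p x ≠ 0 := by
    by_contra hcon
    push Not at hcon
    exact hx.2 (WeightTerm.pr_ext A.isTerm hcon)
  have hpx : A.laplace (WeightTerm.pr A.isTerm p x) = μ • WeightTerm.pr A.isTerm p x := by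
    rw [← WeightTerm.pr_comm A.isTerm A.isTerm A.laplace id Function.injective_id hΔ p x,
      hx.apply_eq_smul, map_smul]
    rfl
  have hgr := WeightTerm.pr_mem A.isTerm p x
  obtain ⟨r, j, ⟨y, hy0, hy, hy₁, hy₂⟩, hrj⟩ := exists_low (n := A.n) W hμ0 hn (by
    rintro r j ⟨y, hy0, hy, hy₁, hy₂⟩
    have h1 := mem_gr A.isTerm A.graded hy₁ hy₂
    by_contra hcon
    refine hy0 (A.graded.bounded _ _ _ h1 ?_)
    rcases abs_cases r with h | h <;> rcases abs_cases j with h' | h' <;> omega)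
    ⟨_, _, WeightTerm.pr A.isTerm p x, hp, hpx, A.isTerm.col_gr _ _ _ hgr,
      A.graded.deg_gr _ _ _ hgr⟩
  have h1 := mem_gr A.isTerm A.graded hy₁ hy₂
  rcases hrj with ⟨rfl, h2⟩ | ⟨rfl, h2⟩ | ⟨rfl, h2⟩
  · exact h00 μ y (WeightTerm.gr_cast rfl (by omega) h1) hy0 hy hμ0
  · exact h10 μ y (WeightTerm.gr_cast rfl (by omega) h1) hy0 hy hμ0
  · exact h01 μ y (WeightTerm.gr_cast rfl (by omega) h1) hy0 hy hμ0

/-- Positivity of the eigenvalues gives all the positive polarizations. -/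
theorem pureOver_of_definite [IsAlgClosed Ω] {s : ℕ} (A : Fin s → Factor.{u, v} Ω) (e : Ω)
    (hA : ∀ i, (A i).IsDefinite e ∨ (A i).IsSurface e) (t : Fin s → ℚ) (ht : ∀ i, 0 < t i) :
    PureOver A fun i => (t i : Ω) :=
  pureOver_of_pos A {x | IsTotallyPositive (e * x)}
    (fun h => tp_zero (Ω := Ω) (by simpa using h))
    (fun x hx y hy => by
      have h1 := tp_add hx hy
      rwa [← mul_add] at h1)
    (fun c hc x hx => by
      have h1 := tp_mul hc hx
      rwa [mul_left_comm] at h1)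
    (fun i μ hμ h0 => (hA i).elim (fun h => h μ hμ h0) fun h => h.isDefinite μ hμ h0) t ht

end Pool.Agent.H849.PW
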