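import Pool.Agent.H849.PW.Defs
import Pool.Graph.R_seed8.Y143.Pure
import Pool.Graph.R_pool_sql_team_seeded_620a6dc7.Helper812_WR.Filt

/-!
# Purity of log smooth schemes
-/

set_option autoImplicit false
set_option linter.unusedSectionVars false

open Module

namespace Pool.Agent.H849.PW

open Pool.Agent.Y143 Pool.Agent.H849.SF

universe u v

variable {Ω : Type u} [Field Ω] [CharZero Ω] {n q : ℕ}

namespace WeightTerm

variable {T : WeightTerm.{u, v} Ω}

/-- Injectivity of `N ^ k`. -/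
def InjAt (T : WeightTerm.{u, v} Ω) (k : ℕ) (w : ℤ) : Prop := ∀ x : T.E,
  x ∈ T.cocycles (-k) w → (T.N ^ k) x ∈ T.coboundaries k (w - 2 * k) → x ∈ T.coboundaries (-k) w

/-- Surjectivity of `N ^ k`. -/
def SurjAt (T : WeightTerm.{u, v} Ω) (k : ℕ) (w : ℤ) : Prop := ∀ y : T.E,
  y ∈ T.cocycles k (w - 2 * k) →
    ∃ x ∈ T.cocycles (-k) w, y - (T.N ^ k) x ∈ T.coboundaries k (w - 2 * k)

lemma gr_cast {r r' w w' : ℤ} (hr : r = r') (hw : w = w') {x : T.E} (h : x ∈ T.gr r w) :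
    x ∈ T.gr r' w' := by
  subst hr hw; exact h

variable (H : T.IsTerm n q)
include H

lemma bd_le_zc (r w : ℤ) : T.coboundaries r w ≤ T.cocycles r w := by
  rintro _ ⟨y, hy, rfl⟩
  exact ⟨gr_cast (by ring) rfl (H.d_gr (r - 1) w y hy), H.d_d y⟩

lemma N_pow_gr (k : ℕ) {r w : ℤ} {x : T.E} (hx : x ∈ T.gr r w) :
    (T.N ^ k) x ∈ T.gr (r + 2 * k) (w - 2 * k) := by
  induction k with
  | zero => simpa using hx
  | succ k ih =>
    rw [pow_succ', Module.End.mul_apply]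
    exact gr_cast (by push_cast; ring) (by push_cast; ring) (H.N_gr _ _ _ ih)

lemma N_pow_d (k : ℕ) (x : T.E) : (T.N ^ k) (T.d x) = T.d ((T.N ^ k) x) := by
  induction k with
  | zero => rfl
  | succ k ih => rw [pow_succ', Module.End.mul_apply, ih, H.N_d, Module.End.mul_apply]

lemma F_bd {r w : ℤ} {x : T.E} (hx : x ∈ T.coboundaries r w) : T.F x ∈ T.coboundaries r w := by
  obtain ⟨y, hy, rfl⟩ := hx
  exact ⟨T.F y, H.F_gr _ _ _ hy, (H.F_d y).symm⟩

lemma N_zc (k : ℕ) {w : ℤ} {x : T.E} (hx : x ∈ T.cocycles (-k) w) :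
    (T.N ^ k) x ∈ T.cocycles k (w - 2 * k) := by
  refine ⟨gr_cast (by ring) rfl (N_pow_gr H k hx.1), ?_⟩
  rw [SetLike.mem_coe, LinearMap.mem_ker, ← N_pow_d H, LinearMap.mem_ker.1 hx.2, map_zero]

lemma N_bd (k : ℕ) {w : ℤ} {x : T.E} (hx : x ∈ T.coboundaries (-k) w) :
    (T.N ^ k) x ∈ T.coboundaries k (w - 2 * k) := by
  obtain ⟨y, hy, rfl⟩ := hx
  exact ⟨(T.N ^ k) y, gr_cast (by ring) rfl (N_pow_gr H k hy), (N_pow_d H k y).symm⟩

lemma finrank_map_N (k : ℕ) {w : ℤ} {Z : Submodule Ω T.E} (hZ : Z ≤ T.gr (-k) w) :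
    finrank Ω (Z.map (T.N ^ k)) = finrank Ω Z := by
  have := H.finite
  have h1 : Z.map (T.N ^ k) = LinearMap.range ((T.N ^ k).domRestrict Z) := by
    rw [LinearMap.range_domRestrict]
  rw [h1]
  refine LinearMap.finrank_range_of_inj ?_
  rw [injective_iff_map_eq_zero]
  intro x hx
  exact Subtype.ext (H.monodromy k w x (hZ x.2) hx)

lemma finrank_sup {k : ℕ} {w : ℤ} (hI : InjAt T k w) :
    finrank Ω ((T.cocycles (-k) w).map (T.N ^ k) ⊔ T.coboundaries k (w - 2 * k) : Submodule Ω T.E) +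
      finrank Ω (T.coboundaries (-k) w) =
      finrank Ω (T.cocycles (-k) w) + finrank Ω (T.coboundaries k (w - 2 * k)) := by
  have := H.finite
  have h1 := Submodule.finrank_sup_add_finrank_inf_eq ((T.cocycles (-k) w).map (T.N ^ k))
    (T.coboundaries k (w - 2 * k))
  have h2 : (T.cocycles (-k) w).map (T.N ^ k) ⊓ T.coboundaries k (w - 2 * k) =
      (T.coboundaries (-k) w).map (T.N ^ k) := by
    apply le_antisymm
    · rintro _ ⟨⟨x, hx, rfl⟩, hb⟩
      exact ⟨x, hI x hx hb, rfl⟩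
    · rintro _ ⟨x, hx, rfl⟩
      exact ⟨⟨x, bd_le_zc H _ _ hx, rfl⟩, N_bd H k hx⟩
  have h3 : T.cocycles (-k) w ≤ T.gr (-k) w := inf_le_left
  rw [h2, finrank_map_N H k h3, finrank_map_N H k ((bd_le_zc H _ _).trans h3)] at h1
  exact h1

lemma sup_le_zc (k : ℕ) (w : ℤ) :
    (T.cocycles (-k) w).map (T.N ^ k) ⊔ T.coboundaries k (w - 2 * k) ≤
      T.cocycles k (w - 2 * k) := by
  refine sup_le ?_ (bd_le_zc H _ _)
  rintro _ ⟨x, hx, rfl⟩
  exact N_zc H k hx

lemma dim_le {k : ℕ} {w : ℤ} (hI : InjAt T k w) : T.dimE₂ (-k) w ≤ T.dimE₂ k (w - 2 * k) := by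
  have := H.finite
  have h1 := finrank_sup H hI
  have h2 := Submodule.finrank_mono (sup_le_zc H k w)
  rw [dimE₂, dimE₂]
  omega

/-- Surjectivity, from the equality of the dimensions. -/
lemma surj_of_dim {k : ℕ} {w : ℤ} (hI : InjAt T k w)
    (h : T.dimE₂ (-k) w = T.dimE₂ k (w - 2 * k)) : SurjAt T k w := by
  intro y hy
  have := H.finite
  have h1 := finrank_sup H hI
  have h7 : T.cocycles k (w - 2 * k) =
      (T.cocycles (-k) w).map (T.N ^ k) ⊔ T.coboundaries k (w - 2 * k) := by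
    symm
    apply Submodule.eq_of_le_of_finrank_le (sup_le_zc H k w)
    rw [dimE₂, dimE₂] at h
    omega
  rw [h7] at hy
  obtain ⟨_, ⟨x, hx, rfl⟩, b, hb, rfl⟩ := Submodule.mem_sup.1 hy
  refine ⟨x, hx, ?_⟩
  rwa [add_sub_cancel_left]

/-- Surjectivity in all the degrees, from the duality. -/
lemma surj_of_inj (hI : ∀ (k : ℕ) (w : ℤ), 1 ≤ k → InjAt T k w) (k : ℕ) (w : ℤ) (hk : 1 ≤ k) :
    SurjAt T k w := by
  have h2 := dim_le H (hI k w hk)
  have h3 := dim_le H (hI k (2 * n - (w - 2 * k)) hk)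
  have h4 := H.duality k (w - 2 * k)
  have h5 := H.duality k (2 * n - (w - 2 * k) - 2 * k)
  rw [show (2 * n - (2 * n - (w - 2 * k) - 2 * k) : ℤ) = w by ring] at h5
  exact surj_of_dim H (hI k w hk) (by omega)

/-- Surjectivity, from the duality and the hard Lefschetz theorem. -/
lemma surj_of_symmetric (hS : T.Symmetric n) {k : ℕ} {w : ℤ} (hI : InjAt T k w) :
    SurjAt T k w := by
  have h4 := H.duality k (w - 2 * k)
  have h5 := hS (-k) w
  rw [show (2 * n - (w - 2 * k) : ℤ) = 2 * n - 2 * (-k) - w by ring, ← h5] at h4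
  exact surj_of_dim H hI h4.symm

end WeightTerm

namespace LogModel

variable (Z : LogModel.{u, v} Ω n q)

lemma W_cast {i : ℕ} {w w' : ℤ} (h : w = w') {v : Z.generic.V i} (hv : v ∈ Z.generic.W i w) : v ∈ Z.generic.W i w' := by
  subst h; exact hv

lemma sp_cast {i : ℕ} {w w' : ℤ} (h : w = w') {v : Z.generic.V i} {x : Z.E} (hv : (v, x) ∈ Z.generic.sp i w) :
    (v, x) ∈ Z.generic.sp i w' := by
  subst h; exact hv

lemma zc_cast {r r' w w' : ℤ} (hr : r = r') (hw : w = w') {x : Z.E} (h : x ∈ Z.cocycles r w) :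
    x ∈ Z.cocycles r' w' := by
  subst hr hw; exact h

lemma bd_cast {r r' w w' : ℤ} (hr : r = r') (hw : w = w') {x : Z.E}
    (h : x ∈ Z.coboundaries r w) : x ∈ Z.coboundaries r' w' := by
  subst hr hw; exact h

lemma frob_W (i : ℕ) {w : ℤ} {v : Z.generic.V i} (hv : v ∈ Z.generic.W i w) :
    Z.generic.frob i v ∈ Z.generic.W i w := by
  obtain ⟨x, hx⟩ := (Z.graded i).sp_left _ v hv
  exact ((Z.graded i).sp_mem _ _ _ ((Z.respects i).frob _ v x hx)).1

lemma weil_W (m : ℕ) {a : ℤ} {α : Ω} {v : Z.generic.V m} (hv : v ∈ Z.generic.W m (m + a))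
    (hv' : v ∉ Z.generic.W m (m + (a - 1)))
    (hα : Z.generic.frob m v - α • v ∈ Z.generic.W m (m + (a - 1))) :
    IsWeilNumber q (a + m) α := by
  have G := Z.graded m
  obtain ⟨x, hx⟩ := G.sp_left _ v hv
  have h1 := (G.sp_mem _ _ _ hx).2
  have h2 : x ∉ Z.coboundaries (m - (m + a)) (m + a) := by
    intro hc
    exact hv' (Z.W_cast (by ring) ((G.sp_ker _ _ _ hx).2 hc))
  have h3 : (Z.generic.frob m v - α • v, Z.F x - α • x) ∈ Z.generic.sp m (m + a) :=
    Submodule.sub_mem _ ((Z.respects m).frob _ v x hx) (Submodule.smul_mem _ α hx)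
  have h5 : Z.F x - α • x ∈ Z.coboundaries (m - (m + a)) (m + a) :=
    (G.sp_ker _ _ _ h3).1 (Z.W_cast (by ring) hα)
  have := Z.isTerm.finite
  obtain ⟨y, hy, hy0, hyα⟩ := exists_eigen (S := Z.F) (WeightTerm.bd_le_zc Z.isTerm _ _)
    (fun x hx => WeightTerm.F_bd Z.isTerm hx) h1 h2 h5
  have h6 := Z.isTerm.weil _ _ _ _ hy.1 hy0 hyα
  rwa [show (m : ℤ) + a = a + m by ring] at h6

lemma N_pow_sp {i : ℕ} {w : ℤ} {v : Z.generic.V i} {x : Z.E} (h : (v, x) ∈ Z.generic.sp i w) (k : ℕ) :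
    ((Z.generic.mon i ^ k) v, (Z.N ^ k) x) ∈ Z.generic.sp i (w - 2 * k) := by
  induction k with
  | zero => simpa using h
  | succ k ih =>
    rw [pow_succ', pow_succ', Module.End.mul_apply, Module.End.mul_apply]
    exact Z.sp_cast (by push_cast; ring) ((Z.respects i).mon _ _ _ ih)

/-- Purity, from the bijectivity on the `E_2` term. -/
theorem pureIn_of (m : ℕ) (hI : ∀ k : ℕ, 1 ≤ k → WeightTerm.InjAt Z.toWeightTerm k (m + k))
    (hS : ∀ k : ℕ, 1 ≤ k → WeightTerm.SurjAt Z.toWeightTerm k (m + k)) : Z.PureIn m := by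
  have G := Z.graded m
  refine ⟨fun a => Z.generic.W m ((m : ℤ) + a), ⟨fun a b hab => G.W_mono (by omega), ?_, ?_, ?_, ?_, ?_⟩,
    ?_, ?_⟩
  · obtain ⟨w, hw⟩ := G.W_bot
    refine ⟨w - m, ?_⟩
    show Z.generic.W m ((m : ℤ) + (w - m)) = ⊥
    rw [show (m : ℤ) + (w - m) = w by ring, hw]
  · obtain ⟨w, hw⟩ := G.W_top
    refine ⟨w - m, ?_⟩
    show Z.generic.W m ((m : ℤ) + (w - m)) = ⊤
    rw [show (m : ℤ) + (w - m) = w by ring, hw]
  · intro a v hv
    obtain ⟨x, hx⟩ := G.sp_left _ v hv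
    exact Z.W_cast (by ring) (G.sp_mem _ _ _ ((Z.respects m).mon _ _ _ hx)).1
  · intro a v hv hN
    obtain ⟨x, hx⟩ := G.sp_left _ v hv
    rcases Nat.eq_zero_or_pos a with rfl | ha
    · rw [pow_zero] at hN
      exact Z.W_cast (by push_cast; ring) hN
    · have h1 := Z.N_pow_sp hx a
      have h2 := (G.sp_ker _ _ _ h1).1 (Z.W_cast (by ring) hN)
      have h3 := (G.sp_mem _ _ _ hx).2
      have h5 := hI a ha x (Z.zc_cast (by ring) rfl h3) (Z.bd_cast (by ring) rfl h2)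
      have h6 := (G.sp_ker _ _ _ hx).2 (Z.bd_cast (by ring) rfl h5)
      exact Z.W_cast (by ring) h6
  · intro a v hv
    obtain ⟨y, hy⟩ := G.sp_left _ v hv
    rcases Nat.eq_zero_or_pos a with rfl | ha
    · refine ⟨v, Z.W_cast (by push_cast; ring) hv, ?_⟩
      rw [pow_zero, Module.End.one_apply, sub_self]
      exact Submodule.zero_mem _
    · have h1 := (G.sp_mem _ _ _ hy).2
      obtain ⟨x, hx, hxb⟩ := hS a ha y (Z.zc_cast (by ring) (by ring) h1)
      obtain ⟨v', hv'⟩ := G.sp_right ((m : ℤ) + a) x (Z.zc_cast (by ring) rfl hx)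
      refine ⟨v', (G.sp_mem _ _ _ hv').1, ?_⟩
      have h2 := Z.N_pow_sp hv' a
      have h3 : (v - (Z.generic.mon m ^ a) v', y - (Z.N ^ a) x) ∈ Z.generic.sp m ((m : ℤ) + -a) :=
        Submodule.sub_mem _ hy (Z.sp_cast (show (m : ℤ) + a - 2 * a = m + -a by ring) h2)
      have h6 := (G.sp_ker _ _ _ h3).2 (Z.bd_cast (by ring) (by ring) hxb)
      exact Z.W_cast (by ring) h6
  · exact fun a v hv => Z.frob_W m hv
  · exact fun a α v hv hv' hα => Z.weil_W m hv hv' hα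

/-- Purity in all degrees, from the injectivity on the `E_2` term. -/
theorem allPure_of (hI : ∀ (k : ℕ) (w : ℤ), 1 ≤ k → WeightTerm.InjAt Z.toWeightTerm k w) (i : ℕ) :
    Z.PureIn i :=
  Z.pureIn_of i (fun k hk => hI k _ hk) fun k hk => WeightTerm.surj_of_inj Z.isTerm hI k _ hk

/-- Purity gives the injectivity on the `E_2` term. -/
theorem injAt_of_pureIn [IsAlgClosed Ω] (hq : 1 < q) {m : ℕ} (hp : Z.PureIn m) (k : ℕ) :
    WeightTerm.InjAt Z.toWeightTerm k (m + k) := by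
  obtain ⟨M, hM, hMs, hMw⟩ := hp
  have G := Z.graded m
  have := Z.finite m
  have h1 : Helper812_WR.IsWeightFiltration q m (Z.generic.frob m) M :=
    ⟨hM.mono, hM.bot, hM.top, hMs, hMw⟩
  have h0 : Helper812_WR.IsWeightFiltration q m (Z.generic.frob m)
      (fun a => Z.generic.W m ((m : ℤ) + a)) := by
    refine ⟨fun a b hab => G.W_mono (by omega), ?_, ?_, fun a v hv => Z.frob_W m hv,
      fun a α v hv hv' hα => Z.weil_W m hv hv' hα⟩
    · obtain ⟨w, hw⟩ := G.W_bot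
      refine ⟨w - m, ?_⟩
      show Z.generic.W m ((m : ℤ) + (w - m)) = ⊥
      rw [show (m : ℤ) + (w - m) = w by ring, hw]
    · obtain ⟨w, hw⟩ := G.W_top
      refine ⟨w - m, ?_⟩
      show Z.generic.W m ((m : ℤ) + (w - m)) = ⊤
      rw [show (m : ℤ) + (w - m) = w by ring, hw]
  have h2 : ∀ a, M a = Z.generic.W m (m + a) := fun a => h1.eq hq h0 a
  intro x hx hN
  obtain ⟨v, hv⟩ := G.sp_right ((m : ℤ) + k) x (Z.zc_cast (by ring) rfl hx)
  have h3 := Z.N_pow_sp hv k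
  have h4 := (G.sp_ker _ _ _ h3).2 (Z.bd_cast (by ring) (by ring) hN)
  have h5 := hM.inj k v (by rw [h2]; exact (G.sp_mem _ _ _ hv).1) (by
    rw [h2]
    exact Z.W_cast (by ring) h4)
  rw [h2] at h5
  exact Z.bd_cast (by ring) rfl ((G.sp_ker _ _ _ hv).1 (Z.W_cast (by ring) h5))

end LogModel

end Pool.Agent.H849.PW
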