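import Pool.Agent.H849.NC.Fwd

/-!
# Tensor products of weight complexes
-/

set_option autoImplicit false
set_option linter.unusedSectionVars false

open Module TensorProduct

namespace Pool.Agent.H849.PW

open Pool.Agent.H849.SF

section Hom

variable {K : Type*} [Field K] {A C E : Type*} [AddCommGroup A] [Module K A] [AddCommGroup C]
  [Module K C] [AddCommGroup E] [Module K E]
  (φ : Module.End K A →ₐ[K] Module.End K E) (ψ : Module.End K C →ₐ[K] Module.End K E)
  (hc : ∀ a b, φ a * ψ b = ψ b * φ a)

/-- The parity operator. -/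
structure IsParity (N N' L L' d ε : Module.End K A) : Prop where
  sq : ε * ε = 1
  N : ε * N = N * ε
  N' : ε * N' = N' * ε
  L : ε * L = L * ε
  L' : ε * L' = L' * ε
  d : ε * d = -(d * ε)

variable {h₁ N N' h₂ L L' d ε : Module.End K A} {k₁ M M' k₂ Q Q' e η : Module.End K C}

lemma map_triple {h e f : Module.End K A} (t : Triple h e f) : Triple (φ h) (φ e) (φ f) where
  he := by rw [← map_mul, ← map_mul, ← map_sub, t.he, map_smul]
  hf := by rw [← map_mul, ← map_mul, ← map_sub, t.hf, map_neg, map_smul]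
  ef := by rw [← map_mul, ← map_mul, ← map_sub, t.ef]

lemma map_cod : φ (cod N' L' d) = cod (φ N') (φ L') (φ d) := by
  simp only [cod, map_sub, map_mul]

lemma map_lap : φ (lap N' L' d) = lap (φ N') (φ L') (φ d) := by
  simp only [lap, map_add, map_mul, map_cod]

include hc

lemma sum_triple {h e f : Module.End K A} {h' e' f' : Module.End K C} (t : Triple h e f)
    (t' : Triple h' e' f') : Triple (φ h + ψ h') (φ e + ψ e') (φ f + ψ f') where
  he := by
    have h1 := (map_triple φ t).he
    have h2 := (map_triple ψ t').he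
    have h3 := hc h e'
    have h4 := hc e h'
    rw [smul_add, ← h1, ← h2]
    linear_combination (norm := noncomm_ring) h3 - h4
  hf := by
    have h1 := (map_triple φ t).hf
    have h2 := (map_triple ψ t').hf
    have h3 := hc h f'
    have h4 := hc f h'
    rw [smul_add, neg_add, ← h1, ← h2]
    linear_combination (norm := noncomm_ring) h3 - h4
  ef := by
    have h1 := (map_triple φ t).ef
    have h2 := (map_triple ψ t').ef
    have h3 := hc e f'
    have h4 := hc f e'
    rw [← h1, ← h2]
    linear_combination (norm := noncomm_ring) h3 - h4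

lemma sum_weight (W : IsWeightComplex h₁ N N' h₂ L L' d) (V : IsWeightComplex k₁ M M' k₂ Q Q' e)
    (P : IsParity N N' L L' d ε) :
    IsWeightComplex (φ h₁ + ψ k₁) (φ N + ψ M) (φ N' + ψ M') (φ h₂ + ψ k₂) (φ L + ψ Q)
      (φ L' + ψ Q') (φ d + φ ε * ψ e) where
  t₁ := sum_triple φ ψ hc W.t₁ V.t₁
  t₂ := sum_triple φ ψ hc W.t₂ V.t₂
  NL := by
    have h1 := congrArg φ W.NL
    have h2 := congrArg ψ V.NL
    rw [map_mul, map_mul] at h1 h2
    linear_combination (norm := noncomm_ring) h1 + h2 + hc N Q - hc L M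
  NL' := by
    have h1 := congrArg φ W.NL'
    have h2 := congrArg ψ V.NL'
    rw [map_mul, map_mul] at h1 h2
    linear_combination (norm := noncomm_ring) h1 + h2 + hc N Q' - hc L' M
  N'L := by
    have h1 := congrArg φ W.N'L
    have h2 := congrArg ψ V.N'L
    rw [map_mul, map_mul] at h1 h2
    linear_combination (norm := noncomm_ring) h1 + h2 + hc N' Q - hc L M'
  N'L' := by
    have h1 := congrArg φ W.N'L'
    have h2 := congrArg ψ V.N'L'
    rw [map_mul, map_mul] at h1 h2
    linear_combination (norm := noncomm_ring) h1 + h2 + hc N' Q' - hc L' M'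
  dd := by
    have h1 := congrArg φ W.dd
    have h2 := congrArg ψ V.dd
    have h3 := congrArg φ P.d
    rw [map_mul, map_zero] at h1 h2
    rw [map_neg, map_mul, map_mul] at h3
    have h4 := hc ε e
    have h5 := hc d e
    linear_combination (norm := noncomm_ring) h1 + φ ε * (φ ε * h2) + h3 * ψ e - φ ε * h5 -
      φ ε * h4 * ψ e
  Nd := by
    have h1 := congrArg φ W.Nd
    have h2 := congrArg ψ V.Nd
    have h3 := congrArg φ P.N
    rw [map_mul, map_mul] at h1 h2 h3
    linear_combination (norm := noncomm_ring) h1 + φ ε * h2 - h3 * ψ e + φ ε * hc N e - hc d M -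
      hc ε M * ψ e
  Ld := by
    have h1 := congrArg φ W.Ld
    have h2 := congrArg ψ V.Ld
    have h3 := congrArg φ P.L
    rw [map_mul, map_mul] at h1 h2 h3
    linear_combination (norm := noncomm_ring) h1 + φ ε * h2 - h3 * ψ e + φ ε * hc L e - hc d Q -
      hc ε Q * ψ e
  h₁d := by
    have h1 := congrArg φ W.h₁d
    have h2 := congrArg ψ V.h₁d
    have h3 : φ ε * φ h₁ = φ h₁ * φ ε := by
      rw [← W.t₁.ef, ← map_mul, ← map_mul]
      congr 1
      linear_combination (norm := noncomm_ring) P.N * N' + N * P.N' - P.N' * N - N' * P.N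
    rw [map_sub, map_mul, map_mul] at h1 h2
    linear_combination (norm := noncomm_ring) h1 + φ ε * h2 - h3 * ψ e + φ ε * hc h₁ e -
      hc d k₁ - hc ε k₁ * ψ e
  h₂d := by
    have h1 := congrArg φ W.h₂d
    have h2 := congrArg ψ V.h₂d
    have h3 : φ ε * φ h₂ = φ h₂ * φ ε := by
      rw [← W.t₂.ef, ← map_mul, ← map_mul]
      congr 1
      linear_combination (norm := noncomm_ring) P.L * L' + L * P.L' - P.L' * L - L' * P.L
    rw [map_sub, map_mul, map_mul] at h1 h2
    linear_combination (norm := noncomm_ring) h1 + φ ε * h2 - h3 * ψ e + φ ε * hc h₂ e -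
      hc d k₂ - hc ε k₂ * ψ e

lemma sum_cod (P : IsParity N N' L L' d ε) :
    cod (φ N' + ψ M') (φ L' + ψ Q') (φ d + φ ε * ψ e) =
      φ (cod N' L' d) + φ ε * ψ (cod M' Q' e) := by
  have h1 := congrArg φ P.N'
  have h2 := congrArg φ P.L'
  rw [map_mul, map_mul] at h1 h2
  have e1 : (φ L' + ψ Q') * (φ d + φ ε * ψ e) - (φ d + φ ε * ψ e) * (φ L' + ψ Q') =
      φ (L' * d - d * L') + φ ε * ψ (Q' * e - e * Q') := by
    simp only [map_sub, map_mul]
    linear_combination (norm := noncomm_ring) -h2 * ψ e + φ ε * hc L' e - hc d Q' - hc ε Q' * ψ e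
  rw [cod, e1]
  generalize hx : L' * d - d * L' = x
  generalize hy : Q' * e - e * Q' = y
  have e2 := hc x M'
  have e3 := hc ε M'
  have e4 := hc N' y
  rw [cod, cod, hx, hy]
  simp only [map_sub, map_mul]
  linear_combination (norm := noncomm_ring) -h1 * ψ y + φ ε * e4 - e2 - e3 * ψ y

lemma cod_parity (P : IsParity N N' L L' d ε) :
    ε * cod N' L' d = -(cod N' L' d * ε) := by
  have h1 := P.N'
  have h2 := P.L'
  have h3 := P.d
  have e1 : ε * (L' * d - d * L') = -((L' * d - d * L') * ε) := by
    linear_combination (norm := noncomm_ring) h2 * d + L' * h3 - h3 * L' + d * h2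
  rw [cod]
  generalize L' * d - d * L' = x at *
  linear_combination (norm := noncomm_ring) h1 * x + N' * e1 - e1 * N' + x * h1

lemma sum_lap (P : IsParity N N' L L' d ε) :
    lap (φ N' + ψ M') (φ L' + ψ Q') (φ d + φ ε * ψ e) =
      φ (lap N' L' d) + ψ (lap M' Q' e) := by
  rw [lap, sum_cod φ ψ hc P]
  have h1 := congrArg φ P.d
  have h2 := congrArg φ (cod_parity (φ := φ) (ψ := ψ) hc P)
  have h3 := congrArg φ P.sq
  simp only [lap]
  generalize cod N' L' d = x at *
  generalize cod M' Q' e = y at *
  rw [map_neg, map_mul, map_mul] at h1 h2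
  rw [map_mul, map_one] at h3
  have e1 := hc x e
  have e2 := hc ε e
  have e3 := hc d y
  have e4 := hc ε y
  simp only [map_add, map_mul]
  linear_combination (norm := noncomm_ring) h1 * ψ y + h2 * ψ e - φ ε * e1 - φ ε * e3 -
    φ ε * e2 * ψ y - φ ε * e4 * ψ e + h3 * ψ e * ψ y + h3 * ψ y * ψ e

lemma sum_parity (P : IsParity N N' L L' d ε) (R : IsParity M M' Q Q' e η) :
    IsParity (φ N + ψ M) (φ N' + ψ M') (φ L + ψ Q) (φ L' + ψ Q') (φ d + φ ε * ψ e)
      (φ ε * ψ η) where
  sq := by
    have h1 := congrArg φ P.sq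
    have h2 := congrArg ψ R.sq
    rw [map_mul, map_one] at h1 h2
    linear_combination (norm := noncomm_ring) h1 + φ ε * φ ε * h2 - φ ε * hc ε η * ψ η
  N := by
    have h1 := congrArg φ P.N
    have h2 := congrArg ψ R.N
    rw [map_mul, map_mul] at h1 h2
    linear_combination (norm := noncomm_ring) h1 * ψ η + φ ε * h2 - φ ε * hc N η + hc ε M * ψ η
  N' := by
    have h1 := congrArg φ P.N'
    have h2 := congrArg ψ R.N'
    rw [map_mul, map_mul] at h1 h2
    linear_combination (norm := noncomm_ring) h1 * ψ η + φ ε * h2 - φ ε * hc N' η + hc ε M' * ψ η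
  L := by
    have h1 := congrArg φ P.L
    have h2 := congrArg ψ R.L
    rw [map_mul, map_mul] at h1 h2
    linear_combination (norm := noncomm_ring) h1 * ψ η + φ ε * h2 - φ ε * hc L η + hc ε Q * ψ η
  L' := by
    have h1 := congrArg φ P.L'
    have h2 := congrArg ψ R.L'
    rw [map_mul, map_mul] at h1 h2
    linear_combination (norm := noncomm_ring) h1 * ψ η + φ ε * h2 - φ ε * hc L' η + hc ε Q' * ψ η
  d := by
    have h1 := congrArg φ P.d
    have h2 := congrArg ψ R.d
    rw [map_neg, map_mul, map_mul] at h1 h2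
    linear_combination (norm := noncomm_ring) h1 * ψ η - φ ε * hc d η + φ ε * φ ε * h2 -
      φ ε * hc ε η * ψ e - φ ε * hc ε e * ψ η

end Hom

section Null

variable {K : Type*} [Field K] {E : Type*} [AddCommGroup E] [Module K E]

/-- If no eigenvalue of `S` and of `T` cancel, the null component of `S + T` is contained in the
null component of `S`. -/
lemma null_left [IsAlgClosed K] [FiniteDimensional K E] {S T : Module.End K E} (hST : Commute S T)
    (hne : ∀ a b, S.HasEigenvalue a → T.HasEigenvalue b → a + b = 0 → a = 0 ∧ b = 0) {m : ℕ}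
    {x : E} (hx : ((S + T) ^ m) x = 0) : ∃ k, (S ^ k) x = 0 := by
  set V : Submodule K E := LinearMap.ker ((S + T) ^ m) with hV
  have hSV : ∀ y ∈ V, S y ∈ V := by
    intro y hy
    rw [hV, LinearMap.mem_ker] at hy ⊢
    have h1 : Commute S ((S + T) ^ m) := ((Commute.refl S).add_right hST).pow_right m
    have h2 := LinearMap.congr_fun h1.eq y
    rw [Module.End.mul_apply, Module.End.mul_apply, hy, map_zero] at h2
    exact h2.symm
  have hTV : ∀ y ∈ V, T y ∈ V := by
    intro y hy
    rw [hV, LinearMap.mem_ker] at hy ⊢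
    have h1 : Commute T ((S + T) ^ m) := (hST.symm.add_right (Commute.refl T)).pow_right m
    have h2 := LinearMap.congr_fun h1.eq y
    rw [Module.End.mul_apply, Module.End.mul_apply, hy, map_zero] at h2
    exact h2.symm
  let S₀ : Module.End K V := S.restrict hSV
  have hev : ∀ a, S₀.HasEigenvalue a → a = 0 := by
    intro a ha
    -- the eigenspace is stable under `T`
    set W : Submodule K E := V ⊓ S.eigenspace a with hW
    have hTW : ∀ y ∈ W, T y ∈ W := by
      rintro y ⟨hy, hy'⟩
      refine ⟨hTV y hy, ?_⟩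
      rw [SetLike.mem_coe, Module.End.mem_eigenspace_iff] at hy' ⊢
      have h2 := LinearMap.congr_fun hST.eq y
      rw [Module.End.mul_apply, Module.End.mul_apply] at h2
      rw [h2, hy', map_smul]
    obtain ⟨v, hv⟩ := ha.exists_hasEigenvector
    have hvW : (v : E) ∈ W := by
      refine ⟨v.2, ?_⟩
      rw [SetLike.mem_coe, Module.End.mem_eigenspace_iff]
      exact congrArg Subtype.val hv.apply_eq_smul
    have hv0 : (v : E) ≠ 0 := fun h => hv.2 (Subtype.ext h)
    have hnt : Nontrivial W := ⟨⟨v, hvW⟩, 0, fun h => hv0 (congrArg Subtype.val h)⟩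
    let T₀ : Module.End K W := T.restrict hTW
    obtain ⟨b, hb⟩ := Module.End.exists_eigenvalue T₀
    obtain ⟨y, hy⟩ := hb.exists_hasEigenvector
    have hy0 : (y : E) ≠ 0 := fun h => hy.2 (Subtype.ext h)
    have hTy : T y = b • (y : E) := congrArg Subtype.val hy.apply_eq_smul
    have hSy : S y = a • (y : E) := Module.End.mem_eigenspace_iff.1 y.2.2
    have hpow : ∀ m : ℕ, ((S + T) ^ m) (y : E) = (a + b) ^ m • (y : E) := by
      intro m
      induction m with
      | zero => simp
      | succ m ih =>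
        rw [pow_succ', Module.End.mul_apply, ih, map_smul, LinearMap.add_apply, hSy, hTy,
          ← add_smul, smul_smul, pow_succ]
    have h1 : (a + b) ^ m • (y : E) = 0 := by
      rw [← hpow]
      exact y.2.1
    have h2 : a + b = 0 := by
      rcases smul_eq_zero.1 h1 with h | h
      · by_contra h'
        exact pow_ne_zero m h' h
      · exact absurd h hy0
    exact (hne a b (Module.End.hasEigenvalue_of_hasEigenvector
      ⟨Module.End.mem_eigenspace_iff.2 hSy, hy0⟩) (Module.End.hasEigenvalue_of_hasEigenvector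
      ⟨Module.End.mem_eigenspace_iff.2 hTy, hy0⟩) h2).1
  have htop := Module.End.iSup_maxGenEigenspace_eq_top S₀
  have h0 : S₀.maxGenEigenspace 0 = ⊤ := by
    rw [eq_top_iff, ← htop]
    refine iSup_le fun a => ?_
    by_cases ha : a = 0
    · rw [ha]
    · intro y hy
      by_contra hcon
      apply ha
      apply hev
      by_contra hne'
      apply hcon
      have h1 : S₀.maxGenEigenspace a = ⊥ := by
        by_contra hb
        apply hne'
        exact Module.End.hasEigenvalue_of_hasGenEigenvalue (k := Module.End.maxGenEigenspaceIndex S₀ a) (by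
          rw [Module.End.HasGenEigenvalue, Module.End.HasUnifEigenvalue]
          rwa [← Module.End.maxGenEigenspace_eq])
      rw [h1, Submodule.mem_bot] at hy
      rw [hy]
      exact Submodule.zero_mem _
  have h1 : (⟨x, hx⟩ : V) ∈ S₀.maxGenEigenspace 0 := by rw [h0]; trivial
  obtain ⟨k, hk⟩ := Module.End.mem_maxGenEigenspace S₀ 0 _ |>.1 h1
  refine ⟨k, ?_⟩
  rw [zero_smul, sub_zero] at hk
  have h2 : ∀ (k : ℕ) (y : V), ((S₀ ^ k) y : E) = (S ^ k) (y : E) := by
    intro k
    induction k with
    | zero => intro y; rfl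
    | succ k ih => intro y; rw [pow_succ, Module.End.mul_apply, ih, pow_succ, Module.End.mul_apply]; rfl
  rw [← h2 k ⟨x, hx⟩, hk]
  rfl

lemma null_right [IsAlgClosed K] [FiniteDimensional K E] {S T : Module.End K E} (hST : Commute S T)
    (hne : ∀ a b, S.HasEigenvalue a → T.HasEigenvalue b → a + b = 0 → a = 0 ∧ b = 0) {m : ℕ}
    {x : E} (hx : ((S + T) ^ m) x = 0) : ∃ k, (T ^ k) x = 0 :=
  null_left hST.symm (fun a b ha hb h => (hne b a hb ha (by rwa [add_comm])).symm)
    (by rwa [add_comm])

/-- The eigenvalues of `S + T`. -/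
lemma eigen_sum [IsAlgClosed K] [FiniteDimensional K E] {S T : Module.End K E} (hST : Commute S T)
    {c : K} (hc : (S + T).HasEigenvalue c) :
    ∃ a b, S.HasEigenvalue a ∧ T.HasEigenvalue b ∧ a + b = c := by
  obtain ⟨v, hv⟩ := hc.exists_hasEigenvector
  set W : Submodule K E := (S + T).eigenspace c with hW
  have hSW : ∀ y ∈ W, S y ∈ W := by
    intro y hy
    rw [hW, Module.End.mem_eigenspace_iff] at hy ⊢
    have h1 : Commute S (S + T) := (Commute.refl S).add_right hST
    have h2 := LinearMap.congr_fun h1.eq y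
    rw [Module.End.mul_apply, Module.End.mul_apply, hy, map_smul] at h2
    exact h2.symm
  have hnt : Nontrivial W := ⟨⟨v, hv.1⟩, 0, fun h => hv.2 (congrArg Subtype.val h)⟩
  let S₀ : Module.End K W := S.restrict hSW
  obtain ⟨a, ha⟩ := Module.End.exists_eigenvalue S₀
  obtain ⟨y, hy⟩ := ha.exists_hasEigenvector
  have hy0 : (y : E) ≠ 0 := fun h => hy.2 (Subtype.ext h)
  have hSy : S y = a • (y : E) := congrArg Subtype.val hy.apply_eq_smul
  have hTy : T y = (c - a) • (y : E) := by
    have h1 : (S + T) (y : E) = c • (y : E) := Module.End.mem_eigenspace_iff.1 y.2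
    rw [LinearMap.add_apply, hSy] at h1
    rw [sub_smul, ← h1, add_sub_cancel_left]
  exact ⟨a, c - a, Module.End.hasEigenvalue_of_hasEigenvector
    ⟨Module.End.mem_eigenspace_iff.2 hSy, hy0⟩, Module.End.hasEigenvalue_of_hasEigenvector
    ⟨Module.End.mem_eigenspace_iff.2 hTy, hy0⟩, by ring⟩

end Null

end Pool.Agent.H849.PW
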