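import Pool.Graph.R_seed8.Y143.Defs
import Pool.Agent.H849.SF.Gen

/-!
# Products of several schemes with bad reduction: definitions

Let `X_1, …, X_s` be projective log smooth schemes over `O` (for example strictly semistable ones)
and `G` a projective scheme of good reduction, with cohomology `U`. The product
`W = X_1 × ⋯ × X_s × G` over `O` is log smooth. By the Kuenneth formula for nearby cycles `RΨ_W` is
the exterior tensor product of the `RΨ_(X_i)` and of `Ω_G`, with the monodromy operator `N = ∑ N_i`, so
that the graded pieces of its monodromy filtration `M` are those of the tensor product, and the `E_1`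
term `E_1^(r, w) = H^(r+w)(gr^M_(-r) RΨ)` of the monodromy weight spectral sequence of `W` is the tensor
product of those of the factors.
-/

set_option autoImplicit false

namespace Pool.Agent.H849.PW

open Module TensorProduct Pool.Agent.Y143 Pool.Agent.H849.SF

universe u v

/-! ### Log smooth schemes -/

/-- The `E_1` term of the monodromy weight spectral sequence, `gr r w = E_1^(r, w)`, with `N`, `d_1`,
the Frobenius `F` and the multiplication `col` by the number of the column. -/
structure WeightTerm (Ω : Type u) [Field Ω] where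
  E : Type v
  [addCommGroup : AddCommGroup E]
  [module : Module Ω E]
  gr : ℤ → ℤ → Submodule Ω E
  N : Module.End Ω E
  d : Module.End Ω E
  F : Module.End Ω E
  col : Module.End Ω E

attribute [instance] WeightTerm.addCommGroup WeightTerm.module

namespace WeightTerm

variable {Ω : Type u} [Field Ω] (T : WeightTerm.{u, v} Ω)

/-- The cocycles in `E_1^(r, w)`. -/
def cocycles (r w : ℤ) : Submodule Ω T.E := T.gr r w ⊓ LinearMap.ker T.d

/-- The coboundaries in `E_1^(r, w)`. -/
def coboundaries (r w : ℤ) : Submodule Ω T.E := (T.gr (r - 1) w).map T.d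

/-- The dimension of `E_2^(r, w)`. -/
noncomputable def dimE₂ (r w : ℤ) : ℤ :=
  finrank Ω (T.cocycles r w) - finrank Ω (T.coboundaries r w)

/-- `E` is the direct sum of the `E_1^(r, w)`, and the operators have the right degrees. -/
structure IsBigraded : Prop where
  internal : DirectSum.IsInternal fun p : ℤ × ℤ => T.gr p.1 p.2
  col_gr : ∀ r w x, x ∈ T.gr r w → T.col x = (r : Ω) • x
  N_gr : ∀ r w x, x ∈ T.gr r w → T.N x ∈ T.gr (r + 2) (w - 2)
  d_gr : ∀ r w x, x ∈ T.gr r w → T.d x ∈ T.gr (r + 1) w
  F_gr : ∀ r w x, x ∈ T.gr r w → T.F x ∈ T.gr r w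

/-- `d_1 ^ 2 = 0`, and `d_1` commutes with `N` and `F`. -/
structure IsComplex : Prop where
  d_d : ∀ x, T.d (T.d x) = 0
  N_d : ∀ x, T.N (T.d x) = T.d (T.N x)
  F_d : ∀ x, T.F (T.d x) = T.d (T.F x)

/-- `N ^ k` is injective on `E_1^(-k, w)` (in fact an isomorphism to `E_1^(k, w - 2 k)`). -/
def IsMonodromy : Prop := ∀ (k : ℕ) (w : ℤ) x, x ∈ T.gr (-k) w → (T.N ^ k) x = 0 → x = 0

/-- The known properties of the `E_1` term, for relative dimension `n`: `E` is the direct sum of the
`E_1^(r, w)`, `N ^ k` is injective on `E_1^(-k, w)`, `E_1^(r, w)` is pure of weight `w`, and `E_2`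
satisfies Poincare duality. -/
structure IsTerm [CharZero Ω] (n q : ℕ) : Prop extends T.IsBigraded, T.IsComplex where
  finite : Module.Finite Ω T.E
  monodromy : T.IsMonodromy
  weil : ∀ r w (α : Ω) x, x ∈ T.gr r w → x ≠ 0 → T.F x = α • x → IsWeilNumber q w α
  duality : ∀ r w, T.dimE₂ r w = T.dimE₂ (-r) (2 * n - w)

/-- The symmetry of `E_2` which follows from the hard Lefschetz theorem, for `X` projective. -/
def Symmetric (n : ℕ) : Prop := ∀ r w, T.dimE₂ r w = T.dimE₂ r (2 * n - 2 * r - w)

end WeightTerm

/-- The groups `V i = H^i` of the geometric generic fibre with the Frobenius, the monodromy operator, the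
weight filtration `W`, and the monodromy weight spectral sequence with `E_1` term `E`: `sp i w` is the
graph of the map from `W_w V^i` to `E_2^(i - w, w)`. -/
structure Generic (Ω : Type u) [Field Ω] (E : Type v) [AddCommGroup E] [Module Ω E] where
  V : ℕ → Type v
  [addCommGroup : ∀ i, AddCommGroup (V i)]
  [module : ∀ i, Module Ω (V i)]
  frob : ∀ i, Module.End Ω (V i)
  mon : ∀ i, Module.End Ω (V i)
  W : ∀ i, ℤ → Submodule Ω (V i)
  sp : ∀ i, ℤ → Submodule Ω (V i × E)

attribute [instance] Generic.addCommGroup Generic.module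

/-- The spectral sequence is compatible with the Frobenius and with `N`. -/
structure Respects {Ω : Type u} [Field Ω] {V E : Type v} [AddCommGroup V] [Module Ω V]
    [AddCommGroup E] [Module Ω E] (S : ℤ → Submodule Ω (V × E)) (frob mon : Module.End Ω V)
    (F N : Module.End Ω E) : Prop where
  frob : ∀ w v x, (v, x) ∈ S w → (frob v, F x) ∈ S w
  mon : ∀ w v x, (v, x) ∈ S w → (mon v, N x) ∈ S (w - 2)

/-- The cohomology of a log smooth proper scheme `Z` over `O`, `|k| = q`, of relative dimension `n`, with
the monodromy weight spectral sequence, whose `E_2` term gives the graded pieces of the weight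
filtration. -/
structure LogModel (Ω : Type u) [Field Ω] [CharZero Ω] (n q : ℕ) extends WeightTerm.{u, v} Ω where
  isTerm : toWeightTerm.IsTerm n q
  generic : Generic.{u, v} Ω E
  finite : ∀ i, Module.Finite Ω (generic.V i)
  graded : ∀ i : ℕ, HasGraded (generic.W i) (generic.sp i)
    (fun w => toWeightTerm.cocycles (i - w) w) (fun w => toWeightTerm.coboundaries (i - w) w)
  respects : ∀ i : ℕ, Respects (generic.sp i) (generic.frob i) (generic.mon i) F N

/-- `H^i` of the geometric generic fibre is mw pure. -/
def LogModel.PureIn {Ω : Type u} [Field Ω] [CharZero Ω] {n q : ℕ} (Z : LogModel.{u, v} Ω n q)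
    (i : ℕ) : Prop := IsMWPure q i (Z.generic.frob i) (Z.generic.mon i)

/-! ### Lefschetz maps -/

section Lefschetz

variable {Ω : Type u} [Field Ω] {A : Type v} [AddCommGroup A] [Module Ω A]

/-- The linear map `f` commutes with the operators `N`, `d` and `c`. -/
structure Intertwines {B : Type v} [AddCommGroup B] [Module Ω B]
    (f : A →ₗ[Ω] B) (N d c : Module.End Ω A) (N' d' c' : Module.End Ω B) : Prop where
  N : ∀ x, f (N x) = N' (f x)
  d : ∀ x, f (d x) = d' (f x)
  col : ∀ x, f (c x) = c' (f x)

/-- The pull-back is onto in all the total degrees different from `n` (weak Lefschetz). -/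
def OntoBut (n : ℕ) (T : WeightTerm.{u, v} Ω) (pull : A →ₗ[Ω] T.E) : Prop :=
  ∀ r w : ℤ, r + w ≠ n → ∀ z ∈ T.gr r w, ∃ x, pull x = z

/-- `pull = f^*` and `push = f_*` belong to a Lefschetz map `f : Z → W` with class `f_* 1` given by the
operator `Θ`, `Z` of relative dimension `n` and with `E_1` term `T`, `W` with the `E_1` term `A` and the
operators `N`, `d` and `c`: they commute with `N` and `d_1` and respect the columns,
`f_* f^* = f_* 1 ∪`, the pull-back is onto in all the total degrees different from `n` (weak Lefschetz),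
and the Poincare pairing is nondegenerate on its image, that is, `E_1(Z)` is the direct sum of the image
of `f^*` and of the kernel of `f_*`. -/
structure IsLefschetz (n : ℕ) (N d c Θ : Module.End Ω A) (T : WeightTerm.{u, v} Ω)
    (pull : A →ₗ[Ω] T.E) (push : T.E →ₗ[Ω] A) : Prop where
  pull_ops : Intertwines pull N d c T.N T.d T.col
  push_ops : Intertwines push T.N T.d T.col N d c
  push_pull : push ∘ₗ pull = Θ
  onto : OntoBut n T pull
  isCompl : IsCompl (LinearMap.range pull) (LinearMap.ker push)

end Lefschetz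

/-! ### Projective log smooth schemes -/

section Polarization

variable {Ω : Type u} [Field Ω]

/-- The operators given by a polarization: the cup product `L`, the dual operators `Λ` of `L` and `N'` of
`N`, and the multiplications by `i - n` in the total degree `i = r + w` and by `(-1) ^ r` in the column
`r`. -/
structure Polarization (T : WeightTerm.{u, v} Ω) where
  L : Module.End Ω T.E
  Λ : Module.End Ω T.E
  N' : Module.End Ω T.E
  deg : Module.End Ω T.E
  sgn : Module.End Ω T.E

/-- `h e - e h = 2 e`, `h f - f h = -2 f` and `e f - f e = h`. -/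
def IsSl2 {E : Type v} [AddCommGroup E] [Module Ω E] (h e f : Module.End Ω E) : Prop :=
  h * e - e * h = (2 : Ω) • e ∧ h * f - f * h = -((2 : Ω) • f) ∧ e * f - f * e = h

/-- The operators `Λ` and `N'` are dual to `L` and `N` (by the hard Lefschetz theorem for the pure
perverse sheaves `gr^M RΨ` they exist and are unique). -/
structure Polarization.IsDual {T : WeightTerm.{u, v} Ω} (P : Polarization T) : Prop where
  sl2_N : IsSl2 T.col T.N P.N'
  sl2_L : IsSl2 P.deg P.L P.Λ
  N_L : Commute T.N P.L
  N_Λ : Commute T.N P.Λ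
  N'_L : Commute P.N' P.L
  N'_Λ : Commute P.N' P.Λ
  L_d : Commute P.L T.d

/-- The operators have the right degrees, and `E_1^(r, w)` is zero except for
`|r| ≤ r + w ≤ 2 n - |r|` (since `gr^M_(-r) RΨ` comes from strata of dimension at most `n - |r|`). -/
structure Polarization.IsGraded {T : WeightTerm.{u, v} Ω} (P : Polarization T) (n : ℕ) : Prop where
  deg_gr : ∀ r w x, x ∈ T.gr r w → P.deg x = ((r + w - n : ℤ) : Ω) • x
  sgn_gr : ∀ r w x, x ∈ T.gr r w → P.sgn x = (-1 : Ω) ^ r.natAbs • x
  bounded : ∀ r w x, x ∈ T.gr r w → r + w < |r| ∨ 2 * n - |r| < r + w → x = 0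

/-- `f` induces an isomorphism `Z / B → Z' / B'`. -/
def IsIso {E : Type v} [AddCommGroup E] [Module Ω E] (f : Module.End Ω E)
    (Z B Z' B' : Submodule Ω E) : Prop :=
  (∀ x ∈ Z, f x ∈ B' → x ∈ B) ∧ ∀ y ∈ Z', ∃ x ∈ Z, y - f x ∈ B'

/-- The hard Lefschetz theorem for the generic fibre, on the `E_2` term. -/
def HardLefschetz (n : ℕ) (T : WeightTerm.{u, v} Ω) (L : Module.End Ω T.E) : Prop :=
  ∀ (r : ℤ) (s : ℕ), IsIso (L ^ s) (T.cocycles r (n - s - r)) (T.coboundaries r (n - s - r))
    (T.cocycles r (n + s - r)) (T.coboundaries r (n + s - r))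

/-- There is a Lefschetz map `f : Z → X` with `f_* 1 = b L ^ c`, `b ≠ 0`, `Z` of relative dimension `m`
and with `E_1` term `T'`: for example `Z` is a transversal complete intersection in `X`. -/
def IsSection (m c : ℕ) (T : WeightTerm.{u, v} Ω) (L : Module.End Ω T.E)
    (T' : WeightTerm.{u, v} Ω) : Prop :=
  ∃ (b : Ω) (pull : T.E →ₗ[Ω] T'.E) (push : T'.E →ₗ[Ω] T.E), b ≠ 0 ∧
    IsLefschetz m T.N T.d T.col (b • L ^ c) T' pull push ∧
    ∀ r w x, x ∈ T.gr r w → pull x ∈ T'.gr r w

end Polarization

/-- A projective log smooth scheme `X` of relative dimension `n` with a polarization, with Lefschetz maps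
`Z m → X` of class `b L ^ (n - m)`, `Z m` of relative dimension `m` for `1 ≤ m ≤ n` (for example
`Z n = X` and `Z m` a transversal complete intersection), such that `H^m` of the geometric generic
fibre of `Z m` is mw pure (this is known for `m ≤ 2`, so for all the `X` of dimension at most two). -/
structure Factor (Ω : Type u) [Field Ω] [CharZero Ω] where
  n : ℕ
  q : ℕ
  one_lt : 1 < q
  T : WeightTerm.{u, v} Ω
  isTerm : T.IsTerm n q
  P : Polarization T
  dual : P.IsDual
  graded : P.IsGraded n
  hard : HardLefschetz n T P.L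
  Z : ∀ m : ℕ, LogModel.{u, v} Ω m q
  sections : ∀ m c : ℕ, 1 ≤ m → m + c = n → IsSection m c T P.L (Z m).toWeightTerm
  symmetric : ∀ m : ℕ, 1 ≤ m → m ≤ n → (Z m).toWeightTerm.Symmetric m
  pure : ∀ m : ℕ, 1 ≤ m → m ≤ n → (Z m).PureIn m

/-- The operator `Δ = d_1 δ + δ d_1`, `δ = [N', [Λ, d_1]]`. -/
def Factor.laplace {Ω : Type u} [Field Ω] [CharZero Ω] (A : Factor.{u, v} Ω) :
    Module.End Ω A.T.E := lap A.P.N' A.P.Λ A.T.d

/-- `μ` is an eigenvalue of `Δ`. -/
def Factor.IsEigenvalue {Ω : Type u} [Field Ω] [CharZero Ω] (A : Factor.{u, v} Ω) (μ : Ω) : Prop :=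
  A.laplace.HasEigenvalue μ

/-- `x` is an algebraic number all of whose conjugates are positive real numbers. -/
def IsTotallyPositive {Ω : Type u} [Field Ω] [CharZero Ω] (x : Ω) : Prop :=
  IsAlgebraic ℚ x ∧ ∀ z : ℂ, Polynomial.aeval z (minpoly ℚ x) = 0 → ∃ r : ℝ, 0 < r ∧ z = r

/-- The numbers `e μ`, for the nonzero eigenvalues `μ` of `Δ`, are totally positive. -/
def Factor.IsDefinite {Ω : Type u} [Field Ω] [CharZero Ω] (A : Factor.{u, v} Ω) (e : Ω) : Prop :=
  ∀ μ, A.IsEigenvalue μ → μ ≠ 0 → IsTotallyPositive (e * μ)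

/-- The numbers `e μ`, for the nonzero eigenvalues `μ` of `Δ` on `E_1^(r, w)`, are totally positive. -/
def Factor.IsDefiniteOn {Ω : Type u} [Field Ω] [CharZero Ω] (A : Factor.{u, v} Ω) (e : Ω)
    (r w : ℤ) : Prop :=
  ∀ (μ : Ω) (x : A.T.E), x ∈ A.T.gr r w → x ≠ 0 → A.laplace x = μ • x → μ ≠ 0 →
    IsTotallyPositive (e * μ)

/-- `X` is a curve or a surface, and the numbers `e μ`, for the nonzero eigenvalues `μ` of `Δ` on
`E_1^(0, 0)`, `E_1^(1, 0)` and `E_1^(0, 1)`, are totally positive. For `X` semistable these are the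
groups `H^0` and `H^1` of the components and `H^0` of the double curves, and this is well known, for
`e = 1` or `e = -1` according to the sign conventions of the spectral sequence: on the first two groups
`Δ` is a combinatorial Laplace operator, with positive rational weights given by the degrees of the
strata, up to the sign, and for the third group this is Weil's theorem (positivity of the Rosati
involution). -/
def Factor.IsSurface {Ω : Type u} [Field Ω] [CharZero Ω] (A : Factor.{u, v} Ω) (e : Ω) : Prop :=
  A.n ≤ 2 ∧ A.IsDefiniteOn e 0 0 ∧ A.IsDefiniteOn e 1 0 ∧ A.IsDefiniteOn e 0 1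

/-! ### The `E_1` term of a product -/

/-- The `E_1` term `E` of a log smooth scheme `W`, a product of schemes with a factor `G` of good
reduction with cohomology `U`, with the operators `N`, `d = d_1`, the Lefschetz operator `L`, the
multiplication `col` by the number of the column, the sign `sgn = (-1) ^ col` and the action `act` of
the operators on `U`. -/
structure Cx (Ω : Type u) [Field Ω] (U : Type v) [AddCommGroup U] [Module Ω U] where
  E : Type v
  [addCommGroup : AddCommGroup E]
  [module : Module Ω E]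
  N : Module.End Ω E
  d : Module.End Ω E
  L : Module.End Ω E
  col : Module.End Ω E
  sgn : Module.End Ω E
  act : Module.End Ω U → Module.End Ω E

attribute [instance] Cx.addCommGroup Cx.module

section Product

variable {Ω : Type u} [Field Ω] {U : Type v} [AddCommGroup U] [Module Ω U]

variable (Ω U) in
/-- The variety `G` of good reduction. -/
def base : Cx Ω U := ⟨U, 0, 0, 0, 0, 1, id⟩

/-- The tensor product. -/
def Ten (Ω : Type u) [Field Ω] (A C : Type v) [AddCommGroup A] [Module Ω A] [AddCommGroup C]
    [Module Ω C] : Type v := A ⊗[Ω] C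

section Ten

variable {A C : Type v} [AddCommGroup A] [Module Ω A] [AddCommGroup C] [Module Ω C]

noncomputable instance : AddCommGroup (Ten Ω A C) := inferInstanceAs (AddCommGroup (A ⊗[Ω] C))

noncomputable instance : Module Ω (Ten Ω A C) := inferInstanceAs (Module Ω (A ⊗[Ω] C))

/-- The operator `a ⊗ b`. -/
noncomputable def both (a : Module.End Ω A) (b : Module.End Ω C) : Module.End Ω (Ten Ω A C) :=
  TensorProduct.map a b

/-- The operator `a ⊗ 1 + e ⊗ b`. -/
noncomputable def sumOp (a e : Module.End Ω A) (b : Module.End Ω C) : Module.End Ω (Ten Ω A C) :=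
  both a LinearMap.id + both e b

end Ten

/-- The tensor product of a complex `A`, with the operators `N`, `d`, `L`, `col` and `sgn`, and of the
complex `W`. The differential is `d ⊗ 1 + sgn ⊗ d`. -/
noncomputable def tensor {A : Type v} [AddCommGroup A] [Module Ω A]
    (N d L col sgn : Module.End Ω A) (W : Cx Ω U) : Cx Ω U where
  E := Ten Ω A W.E
  N := sumOp N LinearMap.id W.N
  d := sumOp d sgn W.d
  L := sumOp L LinearMap.id W.L
  col := sumOp col LinearMap.id W.col
  sgn := both sgn W.sgn
  act g := both LinearMap.id (W.act g)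

/-- The product `X_1 × ⋯ × X_s × G`, with the polarization `t_1 L_1 + ⋯ + t_s L_s`. -/
noncomputable def tens {Ω : Type u} [Field Ω] [CharZero Ω] (U : Type v) [AddCommGroup U]
    [Module Ω U] : (s : ℕ) → (Fin s → Factor.{u, v} Ω) → (Fin s → Ω) → Cx Ω U
  | 0, _, _ => base Ω U
  | s + 1, A, t => tensor (A 0).T.N (A 0).T.d (t 0 • (A 0).P.L) (A 0).T.col (A 0).P.sgn
      (tens U s (fun i => A i.succ) fun i => t i.succ)

/-- The cup product with the class `∑ L ^ i ⊗ β_i`, where `M i` is the cup product with `β_i`. -/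
noncomputable def Cx.classOp (W : Cx Ω U) (M : ℕ → Module.End Ω U) (r : ℕ) : Module.End Ω W.E :=
  ∑ i ∈ Finset.range r, W.L ^ i * W.act (M i)

/-- There is a Lefschetz map `Z → W` with class `f_* 1 = ∑ L ^ i ⊗ β_i`. -/
def HasLefschetzMap (n : ℕ) (W : Cx Ω U) (M : ℕ → Module.End Ω U) (r : ℕ)
    (T : WeightTerm.{u, v} Ω) : Prop :=
  ∃ (pull : W.E →ₗ[Ω] T.E) (push : T.E →ₗ[Ω] W.E),
    IsLefschetz n W.N W.d W.col (W.classOp M r) T pull push

end Product

/-- All the cohomology groups of the geometric generic fibre of `Z` are mw pure, for all the Lefschetz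
maps `Z → X_1 × ⋯ × X_s × G`, of class `∑ L ^ i ⊗ β_i`, where `L = t_1 L_1 + ⋯ + t_s L_s`. -/
def PureOver {Ω : Type u} [Field Ω] [CharZero Ω] {s : ℕ} (A : Fin s → Factor.{u, v} Ω)
    (t : Fin s → Ω) : Prop :=
  ∀ (U : Type v) [AddCommGroup U] [Module Ω U] [Module.Finite Ω U] (n q r : ℕ)
    (Z : LogModel.{u, v} Ω n q) (M : ℕ → Module.End Ω U), HasLefschetzMap n (tens U s A t) M r
      Z.toWeightTerm → ∀ i : ℕ, Z.PureIn i

end Pool.Agent.H849.PW
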