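import Pool.Agent.H849.PW.Alg
import Pool.Agent.H849.NC.Prod

/-!
# Operators on a tensor product
-/

set_option autoImplicit false
set_option linter.unusedSectionVars false

open Module TensorProduct

namespace Pool.Agent.H849.PW

open Pool.Agent.H849.SF Pool.Agent.H849.NC

universe v u

variable {K : Type u} [Field K] [CharZero K] {A C : Type v} [AddCommGroup A] [Module K A] [AddCommGroup C]
  [Module K C]

variable (A C) in
/-- The operator `a ⊗ 1`. -/
noncomputable def lt : Module.End K A →ₐ[K] Module.End K (A ⊗[K] C) :=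
  Module.End.rTensorAlgHom K A C

variable (A C) in
/-- The operator `1 ⊗ b`. -/
noncomputable def rt : Module.End K C →ₐ[K] Module.End K (A ⊗[K] C) :=
  Module.End.lTensorAlgHom K C A

lemma lt_eq (a : Module.End K A) : lt A C a = TensorProduct.map a LinearMap.id := rfl

lemma rt_eq (b : Module.End K C) : rt A C b = TensorProduct.map LinearMap.id b := rfl

lemma lt_tmul (a : Module.End K A) (x : A) (y : C) : lt A C a (x ⊗ₜ[K] y) = a x ⊗ₜ[K] y := rfl

lemma rt_tmul (b : Module.End K C) (x : A) (y : C) : rt A C b (x ⊗ₜ[K] y) = x ⊗ₜ[K] b y := rfl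

lemma lt_rt (a : Module.End K A) (b : Module.End K C) :
    lt A C a * rt A C b = rt A C b * lt A C a := by
  apply TensorProduct.ext'
  intro x y
  rfl

/-- The right slice. -/
noncomputable def srT (φ : A →ₗ[K] K) : (A ⊗[K] C) →ₗ[K] C :=
  slT φ ∘ₗ (TensorProduct.comm K A C).toLinearMap

lemma srT_tmul (φ : A →ₗ[K] K) (x : A) (y : C) : srT φ (x ⊗ₜ[K] y) = φ x • y := by
  rw [srT, LinearMap.comp_apply]
  exact slT_tmul φ y x

lemma slT_lt (φ : C →ₗ[K] K) (a : Module.End K A) (z : A ⊗[K] C) :
    slT φ (lt A C a z) = a (slT φ z) := slT_map φ a LinearMap.id z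

lemma srT_rt (φ : A →ₗ[K] K) (b : Module.End K C) (z : A ⊗[K] C) :
    srT φ (rt A C b z) = b (srT φ z) := by
  induction z using TensorProduct.induction_on with
  | zero => simp
  | tmul x y => rw [rt_tmul, srT_tmul, srT_tmul, map_smul]
  | add x y hx hy => rw [map_add, map_add, hx, hy, map_add, map_add]

lemma srT_zero {z : A ⊗[K] C} (h : ∀ φ : A →ₗ[K] K, srT φ z = 0) : z = 0 := by
  have h1 : TensorProduct.comm K A C z = 0 := slT_zero fun φ => h φ
  exact (LinearEquiv.map_eq_zero_iff _).1 h1

lemma vanish_lt {D d : Module.End K A} (h : VanishesOnNull D d) :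
    VanishesOnNull (lt A C D) (lt A C d) := by
  intro m x hx
  refine slT_zero fun φ => ?_
  rw [slT_lt]
  apply h m
  rw [← slT_lt, map_pow, hx, map_zero]

lemma vanish_rt {D d : Module.End K C} (h : VanishesOnNull D d) :
    VanishesOnNull (rt A C D) (rt A C d) := by
  intro m x hx
  refine srT_zero fun φ => ?_
  rw [srT_rt]
  apply h m
  rw [← srT_rt, map_pow, hx, map_zero]

lemma eigen_lt {D : Module.End K A} {c : K} (h : (lt A C D).HasEigenvalue c) :
    D.HasEigenvalue c := by
  obtain ⟨x, hx⟩ := h.exists_hasEigenvector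
  obtain ⟨φ, hφ⟩ : ∃ φ : C →ₗ[K] K, slT φ x ≠ 0 := by
    by_contra hcon
    push Not at hcon
    exact hx.2 (slT_zero hcon)
  refine Module.End.hasEigenvalue_of_hasEigenvector ⟨Module.End.mem_eigenspace_iff.2 ?_, hφ⟩
  rw [← slT_lt, hx.apply_eq_smul, map_smul]

lemma eigen_rt {D : Module.End K C} {c : K} (h : (rt A C D).HasEigenvalue c) :
    D.HasEigenvalue c := by
  obtain ⟨x, hx⟩ := h.exists_hasEigenvector
  obtain ⟨φ, hφ⟩ : ∃ φ : A →ₗ[K] K, srT φ x ≠ 0 := by
    by_contra hcon
    push Not at hcon
    exact hx.2 (srT_zero hcon)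
  refine Module.End.hasEigenvalue_of_hasEigenvector ⟨Module.End.mem_eigenspace_iff.2 ?_, hφ⟩
  rw [← srT_rt, hx.apply_eq_smul, map_smul]

lemma diag_sum {h : Module.End K A} {k : Module.End K C} (hd : IsDiag h) (kd : IsDiag k) :
    IsDiag (lt A C h + rt A C k) := by
  rw [IsDiag, eq_top_iff]
  rintro z -
  induction z using TensorProduct.induction_on with
  | zero => exact Submodule.zero_mem _
  | add x y hx hy => exact Submodule.add_mem _ hx hy
  | tmul x y =>
    have hx : x ∈ ⨆ c : ℤ, h.eigenspace (c : K) := by rw [hd]; trivial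
    induction hx using Submodule.iSup_induction' with
    | zero => rw [zero_tmul]; exact Submodule.zero_mem _
    | add x x' _ _ hx hx' => rw [add_tmul]; exact Submodule.add_mem _ hx hx'
    | mem a x hx =>
      have hy : y ∈ ⨆ c : ℤ, k.eigenspace (c : K) := by rw [kd]; trivial
      induction hy using Submodule.iSup_induction' with
      | zero => rw [tmul_zero]; exact Submodule.zero_mem _
      | add y y' _ _ hy hy' => rw [tmul_add]; exact Submodule.add_mem _ hy hy'
      | mem b y hy =>
        refine Submodule.mem_iSup_of_mem (a + b) (Module.End.mem_eigenspace_iff.2 ?_)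
        rw [Module.End.mem_eigenspace_iff] at hx hy
        rw [LinearMap.add_apply, lt_tmul, rt_tmul, hx, hy, ← smul_tmul', tmul_smul, ← add_smul]
        push_cast
        rfl

/-- The vanishing on the null component for a tensor product, if no eigenvalues cancel. -/
lemma vanish_sum [IsAlgClosed K] [FiniteDimensional K A] [FiniteDimensional K C]
    {D d ε : Module.End K A} {F e : Module.End K C} (h : VanishesOnNull D d)
    (h' : VanishesOnNull F e)
    (hne : ∀ a b, D.HasEigenvalue a → F.HasEigenvalue b → a + b = 0 → a = 0 ∧ b = 0) :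
    VanishesOnNull (lt A C D + rt A C F) (lt A C d + lt A C ε * rt A C e) := by
  intro m x hx
  have hc : Commute (lt A C D) (rt A C F) := lt_rt D F
  have hne' : ∀ a b, (lt A C D).HasEigenvalue a → (rt A C F).HasEigenvalue b → a + b = 0 →
      a = 0 ∧ b = 0 := fun a b ha hb => hne a b (eigen_lt ha) (eigen_rt hb)
  obtain ⟨k, hk⟩ := null_left hc hne' hx
  obtain ⟨l, hl⟩ := null_right hc hne' hx
  rw [LinearMap.add_apply, Module.End.mul_apply, vanish_lt h k x hk, vanish_rt h' l x hl,
    map_zero, add_zero]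

end Pool.Agent.H849.PW
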