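import Pool.Agent.H849.PW.Sec
import Pool.Agent.H849.PW.Ten

/-!
# The strong form for products
-/

set_option autoImplicit false
set_option linter.unusedSectionVars false

open Module TensorProduct

namespace Pool.Agent.H849.PW

open Pool.Agent.Y143 Pool.Agent.H849.SF Pool.Agent.H849.NC

universe u v

section Scale

variable {K : Type*} [Field K] {E : Type*} [AddCommGroup E] [Module K E]
  {h₁ N N' h₂ L L' d ε : Module.End K E} {t : K}

lemma scale_weight (W : IsWeightComplex h₁ N N' h₂ L L' d) (ht : t ≠ 0) :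
    IsWeightComplex h₁ N N' h₂ (t • L) (t⁻¹ • L') d where
  t₁ := W.t₁
  t₂ :=
    { he := by rw [mul_smul_comm, smul_mul_assoc, ← smul_sub, W.t₂.he, smul_comm]
      hf := by rw [mul_smul_comm, smul_mul_assoc, ← smul_sub, W.t₂.hf, smul_neg, smul_comm]
      ef := by
        rw [mul_smul_comm, smul_mul_assoc, mul_smul_comm, smul_mul_assoc, smul_smul, smul_smul,
          inv_mul_cancel₀ ht, mul_inv_cancel₀ ht, one_smul, one_smul, W.t₂.ef] }
  NL := by rw [mul_smul_comm, smul_mul_assoc, W.NL]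
  NL' := by rw [mul_smul_comm, smul_mul_assoc, W.NL']
  N'L := by rw [mul_smul_comm, smul_mul_assoc, W.N'L]
  N'L' := by rw [mul_smul_comm, smul_mul_assoc, W.N'L']
  dd := W.dd
  Nd := W.Nd
  Ld := by rw [mul_smul_comm, smul_mul_assoc, W.Ld]
  h₁d := W.h₁d
  h₂d := W.h₂d

lemma scale_lap (N' L' d : Module.End K E) (t : K) : lap N' (t • L') d = t • lap N' L' d := by
  simp only [lap, cod, mul_smul_comm, smul_mul_assoc, ← smul_sub, ← smul_add]

lemma scale_parity (P : IsParity N N' L L' d ε) (t t' : K) :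
    IsParity N N' (t • L) (t' • L') d ε where
  sq := P.sq
  N := P.N
  N' := P.N'
  L := by rw [mul_smul_comm, smul_mul_assoc, P.L]
  L' := by rw [mul_smul_comm, smul_mul_assoc, P.L']
  d := P.d

lemma scale_vanish {D d : Module.End K E} (h : VanishesOnNull D d) (ht : t ≠ 0) :
    VanishesOnNull (t • D) d := by
  intro m x hx
  apply h m
  rw [smul_pow, LinearMap.smul_apply, smul_eq_zero] at hx
  exact hx.resolve_left (pow_ne_zero m ht)

lemma scale_eigen {D : Module.End K E} {c : K} (ht : t ≠ 0) (h : (t • D).HasEigenvalue c) :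
    D.HasEigenvalue (t⁻¹ * c) := by
  obtain ⟨x, hx⟩ := h.exists_hasEigenvector
  refine Module.End.hasEigenvalue_of_hasEigenvector ⟨Module.End.mem_eigenspace_iff.2 ?_, hx.2⟩
  have h1 : t • D x = c • x := hx.apply_eq_smul
  rw [mul_smul, ← h1, smul_smul, inv_mul_cancel₀ ht, one_smul]

end Scale

section Parity

variable {Ω : Type u} [Field Ω] [CharZero Ω]

lemma parity_sub (r : ℤ) : ((-1 : Ω) ^ (r - 1).natAbs) = -(-1) ^ r.natAbs := by
  rcases Int.even_or_odd r with h | h
  · have h1 : Even r.natAbs := Int.natAbs_even.2 h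
    have h2 : Odd (r - 1).natAbs := Int.natAbs_odd.2 (h.sub_odd odd_one)
    rw [h1.neg_one_pow, h2.neg_one_pow]
  · have h1 : Odd r.natAbs := Int.natAbs_odd.2 h
    have h2 : Even (r - 1).natAbs := Int.natAbs_even.2 (h.sub_odd odd_one)
    rw [h1.neg_one_pow, h2.neg_one_pow, neg_neg]

lemma parity_sub_two (r : ℤ) : ((-1 : Ω) ^ (r - 2).natAbs) = (-1) ^ r.natAbs := by
  have h1 := parity_sub (Ω := Ω) (r - 1)
  rw [show r - 1 - 1 = r - 2 by ring] at h1
  rw [h1, parity_sub, neg_neg]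

variable {n q : ℕ} {T : WeightTerm.{u, v} Ω} (H : T.IsTerm n q) {P : Polarization T}
  (hg : P.IsGraded n) (hD : P.IsDual)
include H hg hD

lemma sgn_of {a s : ℤ} {x : T.E} (h1 : T.col x = (a : Ω) • x) (h2 : P.deg x = (s : Ω) • x) :
    P.sgn x = (-1 : Ω) ^ a.natAbs • x := hg.sgn_gr _ _ _ (mem_gr H hg h1 h2)

lemma parity_polarization : IsParity T.N P.N' P.L P.Λ T.d P.sgn := by
  have W := weight_polarization H hg hD
  refine ⟨?_, ?_, ?_, ?_, ?_, ?_⟩ <;> refine WeightTerm.op_ext H fun r w x hx => ?_ <;>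
    rw [Module.End.mul_apply]
  · rw [hg.sgn_gr _ _ _ hx, map_smul, hg.sgn_gr _ _ _ hx, smul_smul, ← mul_pow, neg_one_mul,
      neg_neg, one_pow, one_smul]
    rfl
  · rw [Module.End.mul_apply, hg.sgn_gr _ _ _ hx, map_smul, hg.sgn_gr _ _ _ (H.N_gr _ _ _ hx)]
    have := parity_sub_two (Ω := Ω) (r + 2)
    rw [add_sub_cancel_right] at this
    rw [this]
  · have h1 : T.col (P.N' x) = ((r - 2 : ℤ) : Ω) • P.N' x := by
      rw [W.t₁.h_f (H.col_gr _ _ _ hx)]
      push_cast
      rfl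
    have h2 : P.deg (P.N' x) = ((r + w - n : ℤ) : Ω) • P.N' x := by
      rw [apply_eq W.h₂N', hg.deg_gr _ _ _ hx, map_smul]
    rw [Module.End.mul_apply, hg.sgn_gr _ _ _ hx, map_smul, sgn_of H hg hD h1 h2, parity_sub_two]
  · have h1 : T.col (P.L x) = (r : Ω) • P.L x := by
      rw [apply_eq W.h₁L, H.col_gr _ _ _ hx, map_smul]
    have h2 : P.deg (P.L x) = ((r + w - n + 2 : ℤ) : Ω) • P.L x := by
      rw [W.t₂.h_e (hg.deg_gr _ _ _ hx)]
      push_cast
      rfl
    rw [Module.End.mul_apply, hg.sgn_gr _ _ _ hx, map_smul, sgn_of H hg hD h1 h2]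
  · have h1 : T.col (P.Λ x) = (r : Ω) • P.Λ x := by
      rw [apply_eq W.h₁L', H.col_gr _ _ _ hx, map_smul]
    have h2 : P.deg (P.Λ x) = ((r + w - n - 2 : ℤ) : Ω) • P.Λ x := by
      rw [W.t₂.h_f (hg.deg_gr _ _ _ hx)]
      push_cast
      rfl
    rw [Module.End.mul_apply, hg.sgn_gr _ _ _ hx, map_smul, sgn_of H hg hD h1 h2]
  · rw [LinearMap.neg_apply, Module.End.mul_apply, hg.sgn_gr _ _ _ hx, map_smul,
      hg.sgn_gr _ _ _ (H.d_gr _ _ _ hx)]
    have := parity_sub (Ω := Ω) (r + 1)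
    rw [add_sub_cancel_right] at this
    rw [this, neg_smul, neg_neg]

end Parity

section Good

variable {Ω : Type u} [Field Ω] [CharZero Ω] {U : Type v} [AddCommGroup U] [Module Ω U]

/-- The strong form holds for the complex, and the eigenvalues of `Δ` are in `S`. -/
structure Good (C : Cx Ω U) (S : Set Ω) : Prop where
  fin : Module.Finite Ω C.E
  ex : ∃ N' h₂ L' : Module.End Ω C.E, IsWeightComplex C.col C.N N' h₂ C.L L' C.d ∧
    IsDiag C.col ∧ IsParity C.N N' C.L L' C.d C.sgn ∧ VanishesOnNull (lap N' L' C.d) C.d ∧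
    (∀ c, (lap N' L' C.d).HasEigenvalue c → c ∈ S) ∧
    ∀ g, Commute (C.act g) C.N ∧ Commute (C.act g) N' ∧ Commute (C.act g) C.L ∧
      Commute (C.act g) L' ∧ Commute (C.act g) C.d

lemma weight_zero : IsWeightComplex (0 : Module.End Ω U) 0 0 0 0 0 0 := by
  refine ⟨⟨?_, ?_, ?_⟩, ⟨?_, ?_, ?_⟩, ?_, ?_, ?_, ?_, ?_, ?_, ?_, ?_, ?_⟩ <;> simp

lemma diag_zero : IsDiag (0 : Module.End Ω U) := by
  rw [IsDiag, eq_top_iff]
  intro x _
  refine Submodule.mem_iSup_of_mem 0 (Module.End.mem_eigenspace_iff.2 ?_)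
  simp

lemma parity_one : IsParity (0 : Module.End Ω U) 0 0 0 0 1 := by
  refine ⟨?_, ?_, ?_, ?_, ?_, ?_⟩ <;> simp

lemma eigen_zero (c : Ω) (hc : (lap (0 : Module.End Ω U) 0 0).HasEigenvalue c) :
    c ∈ ({0} : Set Ω) := by
  obtain ⟨x, hx⟩ := hc.exists_hasEigenvector
  have h1 : (0 : U) = c • x := by
    have := hx.apply_eq_smul
    simpa [lap, cod] using this
  exact (smul_eq_zero.1 h1.symm).resolve_right hx.2

lemma comm_zero (g : Module.End Ω U) : Commute g 0 := Commute.zero_right g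

lemma good_base [Module.Finite Ω U] : Good (base Ω U) {0} :=
  ⟨‹Module.Finite Ω U›, 0, 0, 0, weight_zero, diag_zero, parity_one, fun _ _ _ => rfl,
    eigen_zero, fun g => ⟨comm_zero g, comm_zero g, comm_zero g, comm_zero g, comm_zero g⟩⟩

lemma lt_mul_rt {A C : Type v} [AddCommGroup A] [Module Ω A] [AddCommGroup C] [Module Ω C]
    (a : Module.End Ω A) (b : Module.End Ω C) : lt A C a * rt A C b = TensorProduct.map a b := by
  apply TensorProduct.ext'
  intro x y
  rfl

/-- The tensor product with a weight complex. -/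
noncomputable def tprod {A : Type v} [AddCommGroup A] [Module Ω A] (N d L h ε : Module.End Ω A)
    (C : Cx Ω U) : Cx Ω U where
  E := A ⊗[Ω] C.E
  N := lt A C.E N + rt A C.E C.N
  d := lt A C.E d + lt A C.E ε * rt A C.E C.d
  L := lt A C.E L + rt A C.E C.L
  col := lt A C.E h + rt A C.E C.col
  sgn := lt A C.E ε * rt A C.E C.sgn
  act g := rt A C.E (C.act g)

lemma good_tprod [IsAlgClosed Ω] {A : Type v} [AddCommGroup A] [Module Ω A] [Module.Finite Ω A]
    {h N N' h₂ L L' d ε : Module.End Ω A} (WX : IsWeightComplex h N N' h₂ L L' d) (hd : IsDiag h)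
    (PX : IsParity N N' L L' d ε) (hvX : VanishesOnNull (lap N' L' d) d) {C : Cx Ω U} {S : Set Ω}
    (G : Good C S)
    (hne : ∀ a, (lap N' L' d).HasEigenvalue a → ∀ b ∈ S, a + b = 0 → a = 0 ∧ b = 0) :
    Good (tprod N d L h ε C) {c | ∃ a, (lap N' L' d).HasEigenvalue a ∧ ∃ b ∈ S, a + b = c} := by
  obtain ⟨hfin, M', k₂, Q', W, kd, P, hv, he, hact⟩ := G
  have hc := lt_rt (K := Ω) (A := A) (C := C.E)
  have hL : lap (lt A C.E N' + rt A C.E M') (lt A C.E L' + rt A C.E Q')
      (lt A C.E d + lt A C.E ε * rt A C.E C.d) =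
      lt A C.E (lap N' L' d) + rt A C.E (lap M' Q' C.d) :=
    sum_lap (lt A C.E) (rt A C.E) hc (M' := M') (Q' := Q') (e := C.d) PX
  refine ⟨inferInstanceAs (Module.Finite Ω (A ⊗[Ω] C.E)),
    lt A C.E N' + rt A C.E M', lt A C.E h₂ + rt A C.E k₂, lt A C.E L' + rt A C.E Q',
    sum_weight (lt A C.E) (rt A C.E) hc WX W PX, diag_sum hd kd,
    sum_parity (lt A C.E) (rt A C.E) hc PX P, ?_, ?_, ?_⟩
  · have h1 := vanish_sum (ε := ε) hvX hv (fun a b ha hb h => hne a ha b (he b hb) h)
    rw [← hL] at h1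
    exact h1
  · intro c hcc
    have h1 : (lt A C.E (lap N' L' d) + rt A C.E (lap M' Q' C.d)).HasEigenvalue c := by
      rw [← hL]
      exact hcc
    obtain ⟨a, b, ha, hb, hab⟩ := eigen_sum (hc _ _) h1
    exact ⟨a, eigen_lt ha, b, he b (eigen_rt hb), hab⟩
  · intro g
    obtain ⟨g1, g2, g3, g4, g5⟩ := hact g
    have key : ∀ (a : Module.End Ω A) (b : Module.End Ω C.E),
        Commute (C.act g) b → Commute (rt A C.E (C.act g)) (lt A C.E a + rt A C.E b) := by
      intro a b hb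
      refine Commute.add_right (hc a _).symm ?_
      rw [commute_iff_eq, ← map_mul, ← map_mul, hb.eq]
    refine ⟨key _ _ g1, key _ _ g2, key _ _ g3, key _ _ g4, ?_⟩
    have h5 : Commute (rt A C.E (C.act g)) (lt A C.E d + lt A C.E ε * rt A C.E C.d) := by
      refine Commute.add_right (hc _ _).symm (Commute.mul_right (hc _ _).symm ?_)
      rw [commute_iff_eq, ← map_mul, ← map_mul, g5.eq]
    exact h5

/-- The tensor product with a weight complex, by tensor products of operators. -/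
noncomputable def tprod' {A : Type v} [AddCommGroup A] [Module Ω A] (N d L h ε : Module.End Ω A)
    (C : Cx Ω U) : Cx Ω U where
  E := A ⊗[Ω] C.E
  N := TensorProduct.map N LinearMap.id + TensorProduct.map LinearMap.id C.N
  d := TensorProduct.map d LinearMap.id + TensorProduct.map ε C.d
  L := TensorProduct.map L LinearMap.id + TensorProduct.map LinearMap.id C.L
  col := TensorProduct.map h LinearMap.id + TensorProduct.map LinearMap.id C.col
  sgn := TensorProduct.map ε C.sgn
  act g := TensorProduct.map LinearMap.id (C.act g)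

lemma tprod_eq {A : Type v} [AddCommGroup A] [Module Ω A] (N d L h ε : Module.End Ω A)
    (C : Cx Ω U) : tprod' N d L h ε C = tprod N d L h ε C := by
  rw [tprod', tprod]
  simp only [lt_mul_rt]
  simp only [lt_eq, rt_eq]

lemma tensor_eq {A : Type v} [AddCommGroup A] [Module Ω A] (N d L h ε : Module.End Ω A)
    (C : Cx Ω U) : tensor N d L h ε C = tprod N d L h ε C := by
  rw [← tprod_eq]
  rfl

lemma good_prod [IsAlgClosed Ω] {C : Cx Ω U} {S : Set Ω} (G : Good C S) (A : Factor.{u, v} Ω)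
    {t : Ω} (ht : t ≠ 0) (hne : ∀ a, A.IsEigenvalue a → ∀ b ∈ S, t⁻¹ * a + b = 0 → a = 0 ∧ b = 0) :
    Good (tensor A.T.N A.T.d (t • A.P.L) A.T.col A.P.sgn C)
      {c | ∃ a, A.IsEigenvalue a ∧ ∃ b ∈ S, t⁻¹ * a + b = c} := by
  have hX := A.isTerm.finite
  have ht' : t⁻¹ ≠ 0 := inv_ne_zero ht
  have hWX := scale_weight (weight_polarization A.isTerm A.graded A.dual) ht
  have hPX := scale_parity (parity_polarization A.isTerm A.graded A.dual) t t⁻¹
  have hdX := WeightTerm.diag_col A.isTerm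
  have hvX : VanishesOnNull (lap A.P.N' (t⁻¹ • A.P.Λ) A.T.d) A.T.d := by
    rw [scale_lap]
    exact scale_vanish A.strong ht'
  have heX : ∀ a, (lap A.P.N' (t⁻¹ • A.P.Λ) A.T.d).HasEigenvalue a →
      A.IsEigenvalue (t * a) := by
    intro a ha
    rw [scale_lap] at ha
    have := scale_eigen ht' ha
    rwa [inv_inv] at this
  have key := good_tprod hWX hdX hPX hvX G (by
    intro a ha b hb h
    have h2 := hne _ (heX a ha) b hb (by rwa [inv_mul_cancel_left₀ ht])
    exact ⟨(mul_eq_zero.1 h2.1).resolve_left ht, h2.2⟩)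
  rw [← tensor_eq] at key
  obtain ⟨k1, N', h₂, L', k2, k3, k4, k5, k6, k7⟩ := key
  refine ⟨k1, N', h₂, L', k2, k3, k4, k5, ?_, k7⟩
  intro c hc
  obtain ⟨a, ha, b, hb, hab⟩ := k6 c hc
  refine ⟨t * a, heX a ha, b, hb, ?_⟩
  rw [inv_mul_cancel_left₀ ht, hab]

/-- The sums of the eigenvalues. -/
def sums {s : ℕ} (A : Fin s → Factor.{u, v} Ω) (t : Fin s → Ω) : Set Ω :=
  {c | ∃ μ : Fin s → Ω, (∀ i, (A i).IsEigenvalue (μ i)) ∧ ∑ i, (t i)⁻¹ * μ i = c}

/-- No cancellation between the eigenvalues. -/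
def NoCancel {s : ℕ} (A : Fin s → Factor.{u, v} Ω) (t : Fin s → Ω) : Prop :=
  ∀ μ : Fin s → Ω, (∀ i, μ i = 0 ∨ (A i).IsEigenvalue (μ i)) → ∑ i, (t i)⁻¹ * μ i = 0 → μ = 0

theorem good_tens [IsAlgClosed Ω] [Module.Finite Ω U] : ∀ (s : ℕ) (A : Fin s → Factor.{u, v} Ω)
    (t : Fin s → Ω), (∀ i, t i ≠ 0) → NoCancel A t → Good (tens U s A t) (sums A t)
  | 0, A, t, _, _ => by
    have h1 := good_base (Ω := Ω) (U := U)
    have h2 : sums A t = {0} := by
      ext c
      constructor
      · rintro ⟨μ, -, h⟩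
        rw [← h]
        simp
      · intro h
        exact ⟨fun i => i.elim0, fun i => i.elim0, by rw [Set.mem_singleton_iff.1 h]; simp⟩
    rw [h2]
    exact h1
  | s + 1, A, t, ht, hne => by
    have hne' : NoCancel (fun i : Fin s => A i.succ) fun i => t i.succ := by
      intro μ hμ hsum
      have h1 := hne (Fin.cons 0 μ) (fun i => by
        refine Fin.cases ?_ (fun j => ?_) i
        · exact Or.inl rfl
        · rw [Fin.cons_succ]
          exact hμ j) (by
        rw [Fin.sum_univ_succ, Fin.cons_zero, mul_zero, zero_add]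
        simpa only [Fin.cons_succ] using hsum)
      funext j
      have := congrFun h1 j.succ
      rwa [Fin.cons_succ] at this
    have ih := good_tens s (fun i => A i.succ) (fun i => t i.succ) (fun i => ht _) hne'
    have h1 := good_prod ih (A 0) (ht 0) (by
      rintro a ha b ⟨μ, hμ, rfl⟩ hab
      have h2 := hne (Fin.cons a μ) (fun i => by
        refine Fin.cases ?_ (fun j => ?_) i
        · exact Or.inr ha
        · rw [Fin.cons_succ]
          exact Or.inr (hμ j)) (by
        rw [Fin.sum_univ_succ, Fin.cons_zero]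
        simpa only [Fin.cons_succ] using hab)
      have h3 := congrFun h2 0
      rw [Fin.cons_zero] at h3
      refine ⟨h3, ?_⟩
      refine Finset.sum_eq_zero fun j _ => ?_
      have := congrFun h2 j.succ
      rw [Fin.cons_succ] at this
      rw [this, Pi.zero_apply, mul_zero])
    have h2 : {c | ∃ a, (A 0).IsEigenvalue a ∧ ∃ b ∈ sums (fun i : Fin s => A i.succ)
        (fun i => t i.succ), (t 0)⁻¹ * a + b = c} = sums A t := by
      ext c
      constructor
      · rintro ⟨a, ha, _, ⟨μ, hμ, rfl⟩, rfl⟩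
        refine ⟨Fin.cons a μ, fun i => ?_, ?_⟩
        · refine Fin.cases ?_ (fun j => ?_) i
          · exact ha
          · rw [Fin.cons_succ]
            exact hμ j
        · rw [Fin.sum_univ_succ, Fin.cons_zero]
          simp only [Fin.cons_succ]
      · rintro ⟨μ, hμ, rfl⟩
        refine ⟨μ 0, hμ 0, _, ⟨fun i => μ i.succ, fun i => hμ _, rfl⟩, ?_⟩
        rw [Fin.sum_univ_succ]
    rw [h2] at h1
    exact h1

end Good

end Pool.Agent.H849.PW
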