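import Pool.Agent.H849.PW.Model
import Pool.Agent.H849.SF.Diag

/-!
# Bigraded pieces and Lefschetz maps
-/

set_option autoImplicit false
set_option linter.unusedSectionVars false

open Module TensorProduct

namespace Pool.Agent.H849.PW

open Pool.Agent.Y143 Pool.Agent.H849.SF

universe u v

section Lift

variable {K : Type*} [Field K] [CharZero K] {A B : Type*} [AddCommGroup A] [Module K A]
  [AddCommGroup B] [Module K B]

/-- A vector whose image has weight `c` can be replaced by one of weight `c`. -/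
lemma exists_weight {h : Module.End K A} {g : Module.End K B} (hd : IsDiag h) (p : A →ₗ[K] B)
    (hc : ∀ x, p (h x) = g (p x)) (c : ℤ) {x : A} (hx : g (p x) = (c : K) • p x) :
    ∃ x', h x' = (c : K) • x' ∧ p x' = p x := by
  refine ⟨wproj hd c x, h_wproj hd c x, ?_⟩
  have hind : iSupIndep fun a : ℤ => g.eigenspace (a : K) :=
    (Module.End.eigenspaces_iSupIndep g).comp Int.cast_injective
  have key : ∀ y : A, p y - p (wproj hd c y) ∈ ⨆ (a : ℤ) (_ : a ≠ c), g.eigenspace (a : K) := by
    intro y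
    have hy : y ∈ ⨆ a : ℤ, h.eigenspace (a : K) := by rw [hd]; trivial
    induction hy using Submodule.iSup_induction' with
    | zero =>
      rw [map_zero, map_zero, map_zero, sub_self]
      exact Submodule.zero_mem _
    | add y z _ _ hy hz =>
      rw [map_add, map_add, map_add, add_sub_add_comm]
      exact Submodule.add_mem _ hy hz
    | mem a y hy =>
      rw [Module.End.mem_eigenspace_iff] at hy
      by_cases hac : a = c
      · subst hac
        rw [wproj_same hd hy, sub_self]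
        exact Submodule.zero_mem _
      · rw [wproj_ne hd hy hac, map_zero, sub_zero]
        refine Submodule.mem_iSup_of_mem a (Submodule.mem_iSup_of_mem hac ?_)
        rw [Module.End.mem_eigenspace_iff, ← hc, hy, map_smul]
  have h1 : p x - p (wproj hd c x) ∈ g.eigenspace (c : K) := by
    rw [Module.End.mem_eigenspace_iff, map_sub, hx, ← hc, h_wproj, map_smul, smul_sub]
  have h2 := (hind c).le_bot ⟨h1, key x⟩
  exact (sub_eq_zero.1 ((Submodule.mem_bot K).1 h2)).symm

end Lift

namespace WeightTerm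

variable {Ω : Type u} [Field Ω] [CharZero Ω] {n q : ℕ} {T : WeightTerm.{u, v} Ω}
  (H : T.IsTerm n q)
include H

lemma exists_pr (p : ℤ × ℤ) : ∃ pr : Module.End Ω T.E,
    (∀ x, pr x ∈ T.gr p.1 p.2) ∧ (∀ x, x ∈ T.gr p.1 p.2 → pr x = x) ∧
    ∀ p' x, x ∈ T.gr p'.1 p'.2 → p' ≠ p → pr x = 0 := by
  classical
  let _ := H.internal.chooseDecomposition
  let ℳ : ℤ × ℤ → Submodule Ω T.E := fun p => T.gr p.1 p.2
  refine ⟨(ℳ p).subtype ∘ₗ DirectSum.component Ω _ _ p ∘ₗ
    (DirectSum.decomposeLinearEquiv ℳ).toLinearMap, ?_, ?_, ?_⟩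
  · intro x
    exact (DirectSum.decompose ℳ x p).2
  · intro x hx
    exact DirectSum.decompose_of_mem_same ℳ (i := p) hx
  · intro p' x hx hne
    exact DirectSum.decompose_of_mem_ne ℳ (i := p') hx hne

/-- The projection on a bigraded piece. -/
noncomputable def pr (p : ℤ × ℤ) : Module.End Ω T.E := (exists_pr H p).choose

lemma pr_mem (p : ℤ × ℤ) (x : T.E) : pr H p x ∈ T.gr p.1 p.2 :=
  (exists_pr H p).choose_spec.1 x

lemma pr_same {p : ℤ × ℤ} {x : T.E} (hx : x ∈ T.gr p.1 p.2) : pr H p x = x :=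
  (exists_pr H p).choose_spec.2.1 x hx

lemma pr_ne {p p' : ℤ × ℤ} {x : T.E} (hx : x ∈ T.gr p'.1 p'.2) (h : p' ≠ p) : pr H p x = 0 :=
  (exists_pr H p).choose_spec.2.2 p' x hx h

/-- Induction over the bigraded pieces. -/
lemma gr_induction {C : T.E → Prop} (h0 : C 0) (hadd : ∀ x y, C x → C y → C (x + y))
    (hgr : ∀ p : ℤ × ℤ, ∀ x ∈ T.gr p.1 p.2, C x) (x : T.E) : C x := by
  have hx : x ∈ ⨆ p : ℤ × ℤ, T.gr p.1 p.2 := by
    rw [H.internal.submodule_iSup_eq_top]; trivial
  induction hx using Submodule.iSup_induction' with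
  | zero => exact h0
  | add y z _ _ hy hz => exact hadd _ _ hy hz
  | mem p y hy => exact hgr p y hy

lemma pr_ext {x : T.E} (h : ∀ p, pr H p x = 0) : x = 0 := by
  have key : x ∈ Submodule.span Ω (Set.range fun p : ℤ × ℤ => pr H p x) := by
    have h1 : ∀ y : T.E, (∃ s : Finset (ℤ × ℤ), y = ∑ p ∈ s, pr H p y ∧ ∀ p, p ∉ s → pr H p y = 0) := by
      classical
      intro y
      refine gr_induction H (C := fun y => ∃ s : Finset (ℤ × ℤ), y = ∑ p ∈ s, pr H p y ∧
        ∀ p, p ∉ s → pr H p y = 0) ⟨∅, by simp⟩ ?_ ?_ y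
      · rintro y z ⟨s, hs, hs'⟩ ⟨t, ht, ht'⟩
        refine ⟨s ∪ t, ?_, ?_⟩
        · have e1 : y = ∑ p ∈ s ∪ t, pr H p y := by
            rw [← Finset.sum_subset Finset.subset_union_left fun p _ hp => hs' p hp]
            exact hs
          have e2 : z = ∑ p ∈ s ∪ t, pr H p z := by
            rw [← Finset.sum_subset Finset.subset_union_right fun p _ hp => ht' p hp]
            exact ht
          simp only [map_add, Finset.sum_add_distrib]
          rw [← e1, ← e2]
        · intro p hp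
          rw [Finset.mem_union, not_or] at hp
          rw [map_add, hs' p hp.1, ht' p hp.2, add_zero]
      · intro p y hy
        refine ⟨{p}, by rw [Finset.sum_singleton, pr_same H hy], fun p' hp' => ?_⟩
        exact pr_ne H hy fun h => hp' (by rw [h]; exact Finset.mem_singleton_self _)
    obtain ⟨s, hs, -⟩ := h1 x
    rw [hs]
    refine Submodule.sum_mem _ fun p _ => ?_
    rw [← hs]
    exact Submodule.subset_span ⟨p, rfl⟩
  have h2 : (Set.range fun p : ℤ × ℤ => pr H p x) ⊆ {0} := by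
    rintro _ ⟨p, rfl⟩
    exact h p
  have h3 := Submodule.span_mono h2 key
  rwa [Submodule.span_zero_singleton, Submodule.mem_bot] at h3

lemma pr_comm {m q' : ℕ} {T' : WeightTerm.{u, v} Ω} (H' : T'.IsTerm m q') (f : T.E →ₗ[Ω] T'.E)
    (σ : ℤ × ℤ → ℤ × ℤ) (hσ : Function.Injective σ)
    (hf : ∀ p x, x ∈ T.gr p.1 p.2 → f x ∈ T'.gr (σ p).1 (σ p).2) (p : ℤ × ℤ) (x : T.E) :
    pr H' (σ p) (f x) = f (pr H p x) := by
  refine gr_induction H (C := fun x => pr H' (σ p) (f x) = f (pr H p x)) (by simp) ?_ ?_ x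
  · intro y z hy hz
    rw [map_add, map_add, map_add, map_add, hy, hz]
  · intro p' y hy
    by_cases hpp : p' = p
    · subst hpp
      rw [pr_same H hy, pr_same H' (hf _ _ hy)]
    · rw [pr_ne H hy hpp, map_zero, pr_ne H' (hf _ _ hy) fun h => hpp (hσ h)]

/-- Two operators which agree on the bigraded pieces are equal. -/
lemma op_ext {f g : Module.End Ω T.E} (h : ∀ r w x, x ∈ T.gr r w → f x = g x) : f = g := by
  refine LinearMap.ext fun x => ?_
  refine gr_induction H (C := fun x => f x = g x) (by simp) ?_ (fun p x hx => h _ _ x hx) x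
  intro y z hy hz
  rw [map_add, map_add, hy, hz]

lemma diag_col : IsDiag T.col := by
  rw [IsDiag, eq_top_iff]
  rintro x -
  refine gr_induction H (C := fun x => x ∈ ⨆ c : ℤ, T.col.eigenspace (c : Ω))
    (Submodule.zero_mem _) (fun x y hx hy => Submodule.add_mem _ hx hy) (fun p x hx => ?_) x
  exact Submodule.mem_iSup_of_mem p.1 (Module.End.mem_eigenspace_iff.2 (H.col_gr _ _ _ hx))

/-- `N ^ k` is injective on the column `-k`. -/
lemma col_inj (k : ℕ) {y : T.E} (hy : T.col y = ((-(k : ℤ) : ℤ) : Ω) • y)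
    (hN : (T.N ^ k) y = 0) : y = 0 := by
  refine pr_ext H fun p => ?_
  have e1 : pr H p (T.col y) = T.col (pr H p y) :=
    pr_comm H H T.col id Function.injective_id (fun p x hx => by
      rw [H.col_gr _ _ _ hx]
      exact Submodule.smul_mem _ _ hx) p y
  rw [hy, map_smul, H.col_gr _ _ _ (pr_mem H p y)] at e1
  by_cases hp : p.1 = -(k : ℤ)
  · have e2 : pr H (p.1 + 2 * k, p.2 - 2 * k) ((T.N ^ k) y) = (T.N ^ k) (pr H p y) :=
      pr_comm H H (T.N ^ k) (fun p => (p.1 + 2 * k, p.2 - 2 * k)) (fun p p' h => by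
        have ha := congrArg Prod.fst h
        have hb := congrArg Prod.snd h
        simp only at ha hb
        exact Prod.ext (by omega) (by omega))
        (fun p x hx => N_pow_gr H k hx) p y
    rw [hN, map_zero] at e2
    have e3 := pr_mem H p y
    rw [hp] at e3
    exact H.monodromy k p.2 _ e3 e2.symm
  · have e2 : (((-(k : ℤ) : ℤ) : Ω) - (p.1 : Ω)) • pr H p y = 0 := by
      rw [sub_smul, e1, sub_self]
    refine (smul_eq_zero.1 e2).resolve_left fun h => ?_
    rw [← Int.cast_sub, Int.cast_eq_zero] at h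
    omega

/-- A coboundary in `E_1^(r, w)` is the coboundary of an element of `E_1^(r - 1, w)`. -/
lemma bd_of_range {r w : ℤ} {z y : T.E} (hz : z ∈ T.gr r w) (hy : z = T.d y) :
    z ∈ T.coboundaries r w := by
  refine ⟨pr H (r - 1, w) y, pr_mem H (r - 1, w) y, ?_⟩
  have e1 : pr H ((r - 1, w).1 + 1, (r - 1, w).2) (T.d y) = T.d (pr H (r - 1, w) y) :=
    pr_comm H H T.d (fun p => (p.1 + 1, p.2)) (fun p p' h => by
      have ha := congrArg Prod.fst h
      have hb := congrArg Prod.snd h
      simp only at ha hb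
      exact Prod.ext (by omega) (by omega)) (fun p x hx => H.d_gr _ _ _ hx) (r - 1, w) y
  rw [← e1, ← hy]
  simp only [sub_add_cancel]
  exact pr_same H (p := (r, w)) hz

end WeightTerm

namespace IsLefschetz

variable {Ω : Type u} [Field Ω] [CharZero Ω] {A : Type v} [AddCommGroup A] [Module Ω A]
  {n q : ℕ} {N d c Θ : Module.End Ω A} {T : WeightTerm.{u, v} Ω} {pull : A →ₗ[Ω] T.E}
  {push : T.E →ₗ[Ω] A} (hL : IsLefschetz n N d c Θ T pull push)
include hL

lemma pp (x : A) : push (pull x) = Θ x := LinearMap.congr_fun hL.push_pull x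

/-- The image of the pull-back and the kernel of the push-forward are independent. -/
lemma dis {x : A} (hx : push (pull x) = 0) : pull x = 0 := by
  have := hL.isCompl.disjoint.le_bot ⟨LinearMap.mem_range_self pull x, LinearMap.mem_ker.2 hx⟩
  exact (Submodule.mem_bot Ω).1 this

lemma eq_of {x y : A} (h : Θ x = Θ y) : pull x = pull y := by
  rw [← sub_eq_zero, ← map_sub]
  apply hL.dis
  rw [hL.pp, map_sub, h, sub_self]

lemma dec (z : T.E) : ∃ x y, push y = 0 ∧ z = pull x + y := by
  have hz : z ∈ LinearMap.range pull ⊔ LinearMap.ker push := by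
    rw [hL.isCompl.codisjoint.eq_top]; trivial
  obtain ⟨_, ⟨x, rfl⟩, y, hy, rfl⟩ := Submodule.mem_sup.1 hz
  exact ⟨x, y, hy, rfl⟩

lemma pull_pow (k : ℕ) (x : A) : pull ((N ^ k) x) = (T.N ^ k) (pull x) := by
  induction k generalizing x with
  | zero => rfl
  | succ k ih => rw [pow_succ, Module.End.mul_apply, ih, hL.pull_ops.N, pow_succ]; rfl

lemma push_pow (k : ℕ) (z : T.E) : push ((T.N ^ k) z) = (N ^ k) (push z) := by
  induction k generalizing z with
  | zero => rfl
  | succ k ih => rw [pow_succ, Module.End.mul_apply, ih, hL.push_ops.N, pow_succ]; rfl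

variable (H : T.IsTerm n q)
include H

/-- The boundaries are in the image. -/
lemma bd (z : T.E) : ∃ x, pull x = T.d z := by
  refine WeightTerm.gr_induction H (C := fun z => ∃ x, pull x = T.d z) ⟨0, by simp⟩ ?_ ?_ z
  · rintro y z ⟨x, hx⟩ ⟨x', hx'⟩
    exact ⟨x + x', by rw [map_add, map_add, hx, hx']⟩
  · intro p z hz
    by_cases hp : p.1 + p.2 = n
    · exact hL.onto (p.1 + 1) p.2 (by omega) _ (H.d_gr _ _ _ hz)
    · obtain ⟨x, hx⟩ := hL.onto p.1 p.2 hp z hz
      exact ⟨d x, by rw [hL.pull_ops.d, hx]⟩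

lemma ker_d {y : T.E} (hy : push y = 0) : T.d y = 0 := by
  obtain ⟨x, hx⟩ := hL.bd H y
  rw [← hx]
  apply hL.dis
  rw [hx, hL.push_ops.d, hy, map_zero]

lemma d_dec (z : T.E) : ∃ x, T.d z = pull (d x) := by
  obtain ⟨x, y, hy, rfl⟩ := hL.dec z
  exact ⟨x, by rw [map_add, hL.ker_d H hy, add_zero, hL.pull_ops.d]⟩

end IsLefschetz

end Pool.Agent.H849.PW
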