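import Pool.Agent.H849.PW.Good

/-!
# Lefschetz maps to products
-/

set_option autoImplicit false
set_option linter.unusedSectionVars false

open Module TensorProduct

namespace Pool.Agent.H849.PW

open Pool.Agent.Y143 Pool.Agent.H849.SF Pool.Agent.H849.NC

universe u v

section Lefschetz

variable {Ω : Type u} [Field Ω] [CharZero Ω] {U : Type v} [AddCommGroup U] [Module Ω U]

/-- The Green operator of a good complex, and the symbol of the class. -/
lemma Good.inj {C : Cx Ω U} {S : Set Ω} (G : Good C S) (M : ℕ → Module.End Ω U) (r : ℕ) (k : ℕ)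
    (x y : C.E) (hx : C.col x = (-(k : Ω)) • x) (hdx : C.classOp M r (C.d x) = 0)
    (hy : C.classOp M r ((C.N ^ k) x) = C.classOp M r (C.d y)) :
    ∃ z, C.classOp M r x = C.classOp M r (C.d z) := by
  obtain ⟨hfin, N', h₂, L', W, kd, -, hv, -, hact⟩ := G
  obtain ⟨P, F⟩ := exists_fitting (lap N' L' C.d)
  obtain ⟨Gr, h1, -, h2⟩ := exists_green F
  have T : IsGreen C.col C.N N' h₂ C.L L' C.d P Gr := ⟨W, F, fun x => by
    obtain ⟨m, hm⟩ := F.nil
    exact hv m _ (hm x), h1, h2⟩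
  have hc : ∀ g, Comm C.N N' L' C.d Gr (C.act g) := by
    intro g
    obtain ⟨g1, g2, g3, g4, g5⟩ := hact g
    have g6 : Commute (C.act g) (cod N' L' C.d) := by
      have g7 := (g4.mul_right g5).sub_right (g5.mul_right g4)
      exact (g2.mul_right g7).sub_right (g7.mul_right g2)
    exact ⟨g1, g2, g5, g6, T.comm _ ((g5.mul_right g6).add_right (g6.mul_right g5))⟩
  have hs : IsSymbol C.N N' L' C.d Gr (C.classOp M r) :=
    IsGreen.symbol_sum _ (fun i => T.symbol_mul (T.symbol_pow T.symbol_L i)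
      (IsGreen.symbol_of_comm (hc (M i)))) r
  exact T.inj_symbol kd hs k x y hx hdx hy

/-- **Lefschetz maps to good complexes.** -/
theorem inj_of_lefschetz {n q : ℕ} {T : WeightTerm.{u, v} Ω} (H : T.IsTerm n q) {C : Cx Ω U}
    {S : Set Ω} (G : Good C S) {M : ℕ → Module.End Ω U} {r : ℕ} {pull : C.E →ₗ[Ω] T.E}
    {push : T.E →ₗ[Ω] C.E} (hL : IsLefschetz n C.N C.d C.col (C.classOp M r) T pull push)
    (k : ℕ) (w : ℤ) : WeightTerm.InjAt T k w := by
  obtain ⟨hfin, N', h₂, L', W, kd, -⟩ := id G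
  intro z hz hNz
  have hcz : T.col z = ((-(k : ℤ) : ℤ) : Ω) • z := H.col_gr _ _ _ hz.1
  obtain ⟨x₀, y, hy, hzxy⟩ := hL.dec z
  -- the weights
  have h1 : T.col (pull x₀) - ((-(k : ℤ) : ℤ) : Ω) • pull x₀ =
      -(T.col y - ((-(k : ℤ) : ℤ) : Ω) • y) := by
    rw [hzxy, map_add, smul_add] at hcz
    rw [eq_neg_iff_add_eq_zero, sub_add_sub_comm, hcz, sub_self]
  have h2 : T.col (pull x₀) = ((-(k : ℤ) : ℤ) : Ω) • pull x₀ := by
    rw [← sub_eq_zero]
    have h3 : T.col (pull x₀) - ((-(k : ℤ) : ℤ) : Ω) • pull x₀ =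
        pull (C.col x₀ - ((-(k : ℤ) : ℤ) : Ω) • x₀) := by
      rw [map_sub, map_smul, hL.pull_ops.col]
    rw [h3]
    apply hL.dis
    rw [← h3, h1, map_neg, map_sub, map_smul, hL.push_ops.col, hy, map_zero, smul_zero, sub_zero,
      neg_zero]
  have h4 : T.col y = ((-(k : ℤ) : ℤ) : Ω) • y := by
    rw [h2, sub_self] at h1
    exact sub_eq_zero.1 (neg_eq_zero.1 h1.symm)
  obtain ⟨x, hx, hxx⟩ := exists_weight kd pull hL.pull_ops.col (-(k : ℤ)) h2
  rw [← hxx] at hzxy
  obtain ⟨z', -, hz'⟩ := hNz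
  obtain ⟨x', h5⟩ := hL.d_dec H z'
  rw [h5, hzxy, map_add, ← hL.pull_pow] at hz'
  have h6 : (T.N ^ k) y = 0 := by
    have h7 : (T.N ^ k) y = pull (C.d x' - (C.N ^ k) x) := by
      rw [map_sub, hz', add_sub_cancel_left]
    rw [h7]
    apply hL.dis
    rw [← h7, hL.push_pow, hy, map_zero]
  have h8 : y = 0 := WeightTerm.col_inj H k h4 h6
  rw [h6, add_zero] at hz'
  rw [h8, add_zero] at hzxy
  have h9 : pull (C.d x) = 0 := by
    rw [hL.pull_ops.d, ← hzxy]
    exact LinearMap.mem_ker.1 hz.2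
  obtain ⟨u, hu⟩ := G.inj M r k x x' (by rw [hx]; push_cast; rfl)
    (by rw [← hL.pp, h9, map_zero]) (by rw [← hL.pp, ← hL.pp, hz'])
  exact WeightTerm.bd_of_range H hz.1 (y := pull u) (by
    rw [hzxy, hL.eq_of hu, hL.pull_ops.d])

end Lefschetz

section Final

variable {Ω : Type u} [Field Ω] [CharZero Ω] [IsAlgClosed Ω] {s : ℕ}

/-- If the eigenvalues do not cancel, the schemes over the product are pure. -/
theorem pureOver_of_noCancel (A : Fin s → Factor.{u, v} Ω) (t : Fin s → Ω) (ht : ∀ i, t i ≠ 0)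
    (hne : NoCancel A t) : PureOver A t := by
  rintro U _ _ _ n q r Z M ⟨pull, push, hL⟩
  exact Z.allPure_of fun k w _ => inj_of_lefschetz Z.isTerm (good_tens s A t ht hne) hL k w

lemma finite_eigen (A : Factor.{u, v} Ω) : {μ : Ω | A.IsEigenvalue μ}.Finite := by
  have := A.isTerm.finite
  exact Module.End.finite_hasEigenvalue A.laplace

/-- The conditions on the polarization. -/
theorem exists_conditions (A : Fin s → Factor.{u, v} Ω) :
    ∃ H : Finset (Fin s → Ω), (∀ μ, μ ∈ H ↔ μ ≠ 0 ∧ ∀ i, μ i = 0 ∨ (A i).IsEigenvalue (μ i)) ∧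
      ∀ t : Fin s → Ω, (∀ i, t i ≠ 0) → (∀ μ ∈ H, ∑ i, (t i)⁻¹ * μ i ≠ 0) → PureOver A t := by
  classical
  let E : Fin s → Finset Ω := fun i => insert 0 (finite_eigen (A i)).toFinset
  refine ⟨(Fintype.piFinset E).filter (· ≠ 0), fun μ => ?_, fun t ht h => ?_⟩
  · rw [Finset.mem_filter, Fintype.mem_piFinset, and_comm]
    simp only [E, Finset.mem_insert, Set.Finite.mem_toFinset, Set.mem_ofPred_eq]
  · apply pureOver_of_noCancel A t ht
    intro μ hμ hsum
    by_contra hne
    refine h μ ?_ hsum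
    rw [Finset.mem_filter, Fintype.mem_piFinset]
    refine ⟨fun i => ?_, hne⟩
    simp only [E, Finset.mem_insert, Set.Finite.mem_toFinset, Set.mem_ofPred_eq]
    exact hμ i

/-- Positivity of the eigenvalues gives all the positive polarizations. -/
theorem pureOver_of_pos (A : Fin s → Factor.{u, v} Ω) (P : Set Ω) (h0 : (0 : Ω) ∉ P)
    (hadd : ∀ x ∈ P, ∀ y ∈ P, x + y ∈ P) (hmul : ∀ (c : ℚ), 0 < c → ∀ x ∈ P, (c : Ω) * x ∈ P)
    (hpos : ∀ i μ, (A i).IsEigenvalue μ → μ ≠ 0 → μ ∈ P) (t : Fin s → ℚ) (ht : ∀ i, 0 < t i) :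
    PureOver A fun i => (t i : Ω) := by
  apply pureOver_of_noCancel A _ fun i => Rat.cast_ne_zero.2 (ht i).ne'
  intro μ hμ hsum
  have h1 : ∀ i, ((t i : Ω))⁻¹ * μ i = 0 ∨ ((t i : Ω))⁻¹ * μ i ∈ P := by
    intro i
    by_cases h : μ i = 0
    · rw [h, mul_zero]
      exact Or.inl rfl
    · right
      have h2 := hmul (t i)⁻¹ (inv_pos.2 (ht i)) _ (hpos i _ ((hμ i).resolve_left h) h)
      rwa [Rat.cast_inv] at h2
  have key : ∀ F : Finset (Fin s), (∀ i ∈ F, ((t i : Ω))⁻¹ * μ i = 0) ∨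
      ∑ i ∈ F, ((t i : Ω))⁻¹ * μ i ∈ P := by
    classical
    intro F
    induction F using Finset.induction_on with
    | empty => exact Or.inl fun i hi => absurd hi (Finset.notMem_empty i)
    | insert a F ha ih =>
      rcases ih with ih | ih
      · rcases h1 a with h2 | h2
        · left
          intro i hi
          rcases Finset.mem_insert.1 hi with rfl | hi
          · exact h2
          · exact ih i hi
        · right
          rw [Finset.sum_insert ha, Finset.sum_eq_zero ih, add_zero]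
          exact h2
      · right
        rw [Finset.sum_insert ha]
        rcases h1 a with h2 | h2
        · rwa [h2, zero_add]
        · exact hadd _ h2 _ ih
  rcases key Finset.univ with h2 | h2
  · funext i
    have := h2 i (Finset.mem_univ i)
    exact (mul_eq_zero.1 this).resolve_left (inv_ne_zero (Rat.cast_ne_zero.2 (ht i).ne'))
  · rw [hsum] at h2
    exact absurd h2 h0

end Final

end Pool.Agent.H849.PW
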