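import Pool.Agent.H849.PW.Lef
import Pool.Agent.H849.NC.Conv

/-!
# The strong form, from the middle cohomology of the sections
-/

set_option autoImplicit false
set_option linter.unusedSectionVars false

open Module TensorProduct

namespace Pool.Agent.H849.PW

open Pool.Agent.Y143 Pool.Agent.H849.SF Pool.Agent.H849.NC

universe u v

section Up

variable {K : Type*} [Field K] [CharZero K] {E : Type*} [AddCommGroup E] [Module K E]
  [FiniteDimensional K E] {h₁ N N' h₂ L L' d : Module.End K E}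

/-- Injectivity in the middle degree of the section of codimension `c + 1` gives injectivity in degree
`-1` for the section of codimension `c`. -/
lemma vInj_up (W : IsWeightComplex h₁ N N' h₂ L L' d) (D₁ : IsDiag h₁) (D₂ : IsDiag h₂) {c : ℕ}
    (h : VInj h₁ N h₂ L d (c + 1) (-((c + 1 : ℕ) : ℤ))) : VInj h₁ N h₂ L d c (-((c : ℤ) + 1)) := by
  intro k x y hx₁ hx₂ hdx hy
  have hx₂' : h₂ x = ((-((c + 1 : ℕ) : ℤ) : ℤ) : K) • x := by rw [hx₂]; push_cast; rfl
  obtain ⟨z, hz⟩ := h k x y hx₁ hx₂' (by rw [pow_succ', Module.End.mul_apply, hdx, map_zero])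
    (by rw [pow_succ', Module.End.mul_apply, Module.End.mul_apply, hy])
  have hx₁' : h₁ x = ((-(k : ℤ) : ℤ) : K) • x := by rw [hx₁]; push_cast; rfl
  obtain ⟨z', -, hz₂, hz'⟩ := hom_pow W D₁ D₂ hx₁' hx₂' hz
  refine ⟨z', ?_⟩
  have h1 : x - d z' = 0 := by
    refine W.t₂.inj (c + 1) ?_ ?_
    · have h2 := LinearMap.congr_fun W.h₂d z'
      rw [LinearMap.sub_apply, Module.End.mul_apply, Module.End.mul_apply, hz₂, map_smul,
        sub_eq_iff_eq_add] at h2
      rw [map_sub, hx₂', h2, smul_sub]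
      push_cast
      module
    · rw [map_sub, hz', sub_self]
  rw [sub_eq_zero.1 h1]

/-- The section of dimension zero. -/
lemma vInj_top (W : IsWeightComplex h₁ N N' h₂ L L' d) {n : ℕ} (hn : ∀ x, (L ^ n) (d x) = 0) :
    VInj h₁ N h₂ L d n (-(n : ℤ)) := by
  intro k x y hx₁ _ _ hy
  refine ⟨0, ?_⟩
  rw [map_zero, map_zero]
  refine W.t₁.inj k ?_ ?_
  · rw [← pow_apply_eq (show L * h₁ = h₁ * L from W.h₁L.symm), hx₁, map_smul]
  · have h1 : (N ^ k) ((L ^ n) x) = (L ^ n) ((N ^ k) x) :=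
      apply_eq (((show Commute N L from W.NL).pow_left k).pow_right n).eq x
    rw [h1, hy, hn]

end Up

variable {Ω : Type u} [Field Ω] [CharZero Ω]

section Weights

variable {n q : ℕ} {T : WeightTerm.{u, v} Ω} (H : T.IsTerm n q) {P : Polarization T}
  (hg : P.IsGraded n)
include H hg

lemma diag_deg : IsDiag P.deg := by
  rw [IsDiag, eq_top_iff]
  rintro x -
  refine WeightTerm.gr_induction H (C := fun x => x ∈ ⨆ c : ℤ, P.deg.eigenspace (c : Ω))
    (Submodule.zero_mem _) (fun x y hx hy => Submodule.add_mem _ hx hy) (fun p x hx => ?_) x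
  exact Submodule.mem_iSup_of_mem (p.1 + p.2 - n)
    (Module.End.mem_eigenspace_iff.2 (hg.deg_gr _ _ _ hx))

/-- The bigraded piece of a vector of given weights. -/
lemma mem_gr {a s : ℤ} {x : T.E} (h1 : T.col x = (a : Ω) • x) (h2 : P.deg x = (s : Ω) • x) :
    x ∈ T.gr a (s + n - a) := by
  have key : x - WeightTerm.pr H (a, s + n - a) x = 0 := by
    refine WeightTerm.pr_ext H fun p => ?_
    by_cases hp : p = (a, s + n - a)
    · subst hp
      rw [map_sub, WeightTerm.pr_same H (WeightTerm.pr_mem H _ x), sub_self]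
    · rw [map_sub, WeightTerm.pr_ne H (WeightTerm.pr_mem H (a, s + n - a) x) (Ne.symm hp), sub_zero]
      have e1 : WeightTerm.pr H p (T.col x) = T.col (WeightTerm.pr H p x) :=
        WeightTerm.pr_comm H H T.col id Function.injective_id (fun p x hx => by
          rw [H.col_gr _ _ _ hx]
          exact Submodule.smul_mem _ _ hx) p x
      have e2 : WeightTerm.pr H p (P.deg x) = P.deg (WeightTerm.pr H p x) :=
        WeightTerm.pr_comm H H P.deg id Function.injective_id (fun p x hx => by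
          rw [hg.deg_gr _ _ _ hx]
          exact Submodule.smul_mem _ _ hx) p x
      rw [h1, map_smul, H.col_gr _ _ _ (WeightTerm.pr_mem H p x)] at e1
      rw [h2, map_smul, hg.deg_gr _ _ _ (WeightTerm.pr_mem H p x)] at e2
      by_contra hne
      have e3 : (a : Ω) - (p.1 : Ω) = 0 :=
        (smul_eq_zero.1 (show ((a : Ω) - (p.1 : Ω)) • WeightTerm.pr H p x = 0 by
          rw [sub_smul, e1, sub_self])).resolve_right hne
      have e4 : (s : Ω) - ((p.1 + p.2 - n : ℤ) : Ω) = 0 :=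
        (smul_eq_zero.1 (show ((s : Ω) - ((p.1 + p.2 - n : ℤ) : Ω)) • WeightTerm.pr H p x = 0 by
          rw [sub_smul, e2, sub_self])).resolve_right hne
      rw [← Int.cast_sub, Int.cast_eq_zero] at e3 e4
      exact hp (Prod.ext (by simp only; omega) (by simp only; omega))
  rw [sub_eq_zero.1 key]
  exact WeightTerm.pr_mem H (a, s + n - a) x

variable (hD : P.IsDual)
include hD

lemma weight_polarization : IsWeightComplex T.col T.N P.N' P.deg P.L P.Λ T.d where
  t₁ := ⟨hD.sl2_N.1, hD.sl2_N.2.1, hD.sl2_N.2.2⟩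
  t₂ := ⟨hD.sl2_L.1, hD.sl2_L.2.1, hD.sl2_L.2.2⟩
  NL := hD.N_L
  NL' := hD.N_Λ
  N'L := hD.N'_L
  N'L' := hD.N'_Λ
  dd := LinearMap.ext fun x => H.d_d x
  Nd := LinearMap.ext fun x => H.N_d x
  Ld := hD.L_d
  h₁d := WeightTerm.op_ext H fun r w x hx => by
    rw [LinearMap.sub_apply, Module.End.mul_apply, Module.End.mul_apply, H.col_gr _ _ _ hx,
      H.col_gr _ _ _ (H.d_gr _ _ _ hx), map_smul, ← sub_smul]
    push_cast
    rw [add_sub_cancel_left, one_smul]
  h₂d := WeightTerm.op_ext H fun r w x hx => by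
    rw [LinearMap.sub_apply, Module.End.mul_apply, Module.End.mul_apply, hg.deg_gr _ _ _ hx,
      hg.deg_gr _ _ _ (H.d_gr _ _ _ hx), map_smul, ← sub_smul]
    push_cast
    rw [show (r : Ω) + 1 + w - n - (r + w - n) = 1 by ring, one_smul]

/-- `L ^ n d = 0`. -/
lemma L_top (x : T.E) : (P.L ^ n) (T.d x) = 0 := by
  have W := weight_polarization H hg hD
  refine WeightTerm.gr_induction H (C := fun x => (P.L ^ n) (T.d x) = 0) (by simp) ?_ ?_ x
  · intro x y hx hy
    rw [map_add, map_add, hx, hy, add_zero]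
  · intro p x hx
    by_cases h0 : p.1 + p.2 < 0
    · have := abs_nonneg p.1
      rw [hg.bounded _ _ _ hx (Or.inl (by omega)), map_zero, map_zero]
    · have h1 := H.d_gr _ _ _ hx
      have h2 : T.col ((P.L ^ n) (T.d x)) = ((p.1 + 1 : ℤ) : Ω) • (P.L ^ n) (T.d x) := by
        rw [← pow_apply_eq (show P.L * T.col = T.col * P.L from W.h₁L.symm),
          H.col_gr _ _ _ h1, map_smul]
      have h3 : P.deg ((P.L ^ n) (T.d x)) =
          ((p.1 + 1 + p.2 - n + 2 * n : ℤ) : Ω) • (P.L ^ n) (T.d x) := by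
        rw [W.t₂.h_pow (hg.deg_gr _ _ _ h1)]
        push_cast
        rfl
      have := abs_nonneg (p.1 + 1)
      exact hg.bounded _ _ _ (mem_gr H hg h2 h3) (Or.inr (by omega))

/-- The hard Lefschetz theorem. -/
lemma hasLefschetz (hh : HardLefschetz n T P.L) : HasLefschetz P.deg P.L T.col T.d := by
  intro k s
  have hmem : ∀ {a c : ℤ} {x : T.E}, T.col x = (a : Ω) • x → P.deg x = (c : Ω) • x →
      T.d x = 0 → x ∈ T.cocycles a (n + c - a) := fun h1 h2 h3 =>
    ⟨WeightTerm.gr_cast rfl (by ring) (mem_gr H hg h1 h2), h3⟩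
  constructor
  · intro x hdx hx₂ hx₁ ⟨y, hy⟩
    have hx := hmem hx₁ (c := -(k : ℤ)) (by rw [hx₂]; push_cast; rfl) hdx
    have hx' : x ∈ T.cocycles s (n - k - s) := by
      rwa [← sub_eq_add_neg] at hx
    have W := weight_polarization H hg hD
    have h2 : T.col ((P.L ^ k) x) = (s : Ω) • (P.L ^ k) x := by
      rw [← pow_apply_eq (show P.L * T.col = T.col * P.L from W.h₁L.symm), hx₁, map_smul]
    have h3 : P.deg ((P.L ^ k) x) = ((k : ℤ) : Ω) • (P.L ^ k) x := by
      rw [W.t₂.h_pow hx₂]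
      congr 1
      push_cast
      ring
    have h4 : (P.L ^ k) x ∈ T.gr s (n + k - s) :=
      WeightTerm.gr_cast rfl (by ring) (mem_gr H hg h2 h3)
    obtain ⟨z, -, hz⟩ := (hh s k).1 x hx' (WeightTerm.bd_of_range H h4 hy.symm)
    exact ⟨z, hz⟩
  · intro y hdy hy₂ hy₁
    have hy := hmem hy₁ (c := (k : ℤ)) (by rw [hy₂]; push_cast; rfl) hdy
    obtain ⟨x, hx, z, -, hz⟩ := (hh s k).2 y hy
    refine ⟨x, hx.2, ?_, H.col_gr _ _ _ hx.1, ⟨z, hz⟩⟩
    rw [hg.deg_gr _ _ _ hx.1]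
    congr 1
    push_cast
    ring

end Weights

section Sections

variable {n q m c q' : ℕ} {T : WeightTerm.{u, v} Ω} (H : T.IsTerm n q) {P : Polarization T}
  (hg : P.IsGraded n) (hmc : m + c = n) {T' : WeightTerm.{u, v} Ω} (H' : T'.IsTerm m q')
  (hs : IsSection m c T P.L T')
include H hg hmc H' hs

/-- From the section to the virtual section. -/
lemma vInj_of_injAt (hI : ∀ k : ℕ, 1 ≤ k → WeightTerm.InjAt T' k (m + k)) :
    VInj T.col T.N P.deg P.L T.d c (-(c : ℤ)) := by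
  obtain ⟨b, pull, push, hb, hL, hgr⟩ := hs
  intro k x y hx₁ hx₂ hdx hy
  rcases Nat.eq_zero_or_pos k with rfl | hk
  · exact ⟨y, by simpa using hy⟩
  have hΘ : ∀ {u v : T.E}, (P.L ^ c) u = (P.L ^ c) v → pull u = pull v := fun {u v} h =>
    hL.eq_of (by rw [LinearMap.smul_apply, LinearMap.smul_apply, h])
  have hx₁' : T.col x = ((-(k : ℤ) : ℤ) : Ω) • x := by rw [hx₁]; push_cast; rfl
  have hx : x ∈ T.gr (-k) (m + k) := WeightTerm.gr_cast rfl (by omega) (mem_gr H hg hx₁' hx₂)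
  have hz : pull x ∈ T'.gr (-k) (m + k) := hgr _ _ _ hx
  have hdz : T'.d (pull x) = 0 := by
    rw [← hL.pull_ops.d, hΘ (v := 0) (by rw [hdx, map_zero]), map_zero]
  have hNz : (T'.N ^ k) (pull x) = T'.d (pull y) := by
    rw [← hL.pull_pow, hΘ hy, hL.pull_ops.d]
  have h1 : (T'.N ^ k) (pull x) ∈ T'.coboundaries k (m + k - 2 * k) :=
    WeightTerm.bd_of_range H' (WeightTerm.N_zc H' k ⟨hz, hdz⟩).1 hNz
  obtain ⟨z', -, hz'⟩ := hI k hk (pull x) ⟨hz, hdz⟩ h1
  obtain ⟨w, hw⟩ := hL.d_dec H' z'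
  refine ⟨w, ?_⟩
  have h2 := congrArg push (hz'.symm.trans hw)
  rw [hL.pp, hL.pp, LinearMap.smul_apply, LinearMap.smul_apply] at h2
  exact smul_right_injective _ hb h2

/-- The elements of the section outside of the middle degree. -/
lemma exists_lift {pull : T.E →ₗ[Ω] T'.E} {push : T'.E →ₗ[Ω] T.E} {b : Ω}
    (hL : IsLefschetz m T.N T.d T.col (b • P.L ^ c) T' pull push)
    (hgr : ∀ r w x, x ∈ T.gr r w → pull x ∈ T'.gr r w) {r w : ℤ} (hrw : r + w ≠ m) {z : T'.E}
    (hz : z ∈ T'.gr r w) : ∃ x ∈ T.gr r w, pull x = z := by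
  obtain ⟨x, rfl⟩ := hL.onto r w hrw z hz
  refine ⟨WeightTerm.pr H (r, w) x, WeightTerm.pr_mem H (r, w) x, ?_⟩
  have h1 := WeightTerm.pr_comm H H' pull id Function.injective_id (fun p x hx => hgr _ _ x hx)
    (r, w) x
  rw [← h1]
  exact WeightTerm.pr_same H' (p := (r, w)) hz

/-- From the virtual section to the section, in total degree `m - 1`. -/
lemma injAt_of_vInj (hI : VInj T.col T.N P.deg P.L T.d c (-((c : ℤ) + 1))) (k : ℕ) :
    WeightTerm.InjAt T' k (m - 1 + k) := by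
  obtain ⟨b, pull, push, hb, hL, hgr⟩ := id hs
  intro z hz hN
  obtain ⟨x, hx, rfl⟩ := exists_lift H hg hmc H' hs hL hgr (by omega) hz.1
  have hΘ : ∀ {u v : T.E}, pull u = pull v → (P.L ^ c) u = (P.L ^ c) v := fun {u v} h => by
    have h2 := congrArg push h
    rw [hL.pp, hL.pp, LinearMap.smul_apply, LinearMap.smul_apply] at h2
    exact smul_right_injective _ hb h2
  have hx₁ : T.col x = (-(k : Ω)) • x := by
    rw [H.col_gr _ _ _ hx]
    push_cast
    rfl
  have hx₂ : P.deg x = ((-((c : ℤ) + 1) : ℤ) : Ω) • x := by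
    rw [hg.deg_gr _ _ _ hx]
    congr 2
    omega
  have hdx : (P.L ^ c) (T.d x) = 0 := by
    have := hΘ (u := T.d x) (v := 0) (by
      rw [hL.pull_ops.d, map_zero]
      exact hz.2)
    rw [this, map_zero]
  obtain ⟨z', -, hz'⟩ := hN
  obtain ⟨w, hw⟩ := hL.d_dec H' z'
  have hNx : (P.L ^ c) ((T.N ^ k) x) = (P.L ^ c) (T.d w) := hΘ (by
    rw [hL.pull_pow, ← hz', hw])
  obtain ⟨v, hv⟩ := hI k x w hx₁ hx₂ hdx hNx
  have h1 : pull x = pull (T.d v) :=
    hL.eq_of (by rw [LinearMap.smul_apply, LinearMap.smul_apply, hv])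
  exact WeightTerm.bd_of_range H' hz.1 (h1.trans (hL.pull_ops.d v))

/-- Surjectivity in total degree `m - 1`. -/
lemma vSurj_of_surjAt (hS : ∀ k : ℕ, WeightTerm.SurjAt T' k (m - 1 + k)) :
    VSurj T.col T.N P.deg P.L T.d c (-((c : ℤ) + 1)) := by
  obtain ⟨b, pull, push, hb, hL, hgr⟩ := id hs
  intro k y hy₁ hy₂ hdy
  have hΘ : ∀ {u v : T.E}, pull u = pull v → (P.L ^ c) u = (P.L ^ c) v := fun {u v} h => by
    have h2 := congrArg push h
    rw [hL.pp, hL.pp, LinearMap.smul_apply, LinearMap.smul_apply] at h2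
    exact smul_right_injective _ hb h2
  have hy₁' : T.col y = ((k : ℤ) : Ω) • y := by rw [hy₁]; push_cast; rfl
  have hy : y ∈ T.gr k (m - 1 + k - 2 * k) :=
    WeightTerm.gr_cast rfl (by omega) (mem_gr H hg hy₁' hy₂)
  have hdz : T'.d (pull y) = 0 := by
    rw [← hL.pull_ops.d, hL.eq_of (x := T.d y) (y := 0) (by
      rw [LinearMap.smul_apply, LinearMap.smul_apply, hdy, map_zero]), map_zero]
  obtain ⟨x', hx', z', -, hz'⟩ := hS k (pull y) ⟨hgr _ _ _ hy, hdz⟩
  obtain ⟨x, hx, rfl⟩ := exists_lift H hg hmc H' hs hL hgr (by omega) hx'.1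
  obtain ⟨w, hw⟩ := hL.d_dec H' z'
  refine ⟨x, w, ?_, ?_, ?_, ?_⟩
  · rw [H.col_gr _ _ _ hx]
    push_cast
    rfl
  · rw [hg.deg_gr _ _ _ hx]
    congr 2
    omega
  · have := hΘ (u := T.d x) (v := 0) (by
      rw [hL.pull_ops.d, map_zero]
      exact hx'.2)
    rw [this, map_zero]
  · apply hΘ
    rw [map_sub, hL.pull_pow, ← hz', hw]

end Sections

/-- **The strong form, from the middle cohomology of the sections.** -/
theorem Factor.strong [IsAlgClosed Ω] (A : Factor.{u, v} Ω) :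
    VanishesOnNull A.laplace A.T.d := by
  have := A.isTerm.finite
  have W := weight_polarization A.isTerm A.graded A.dual
  have D₁ := WeightTerm.diag_col A.isTerm
  have D₂ := diag_deg A.isTerm A.graded
  have htop := L_top A.isTerm A.graded A.dual
  have hI : ∀ c : ℕ, c ≤ A.n → VInj A.T.col A.T.N A.P.deg A.P.L A.T.d c (-(c : ℤ)) := by
    intro c hc
    rcases Nat.eq_or_lt_of_le hc with rfl | hc'
    · exact vInj_top W htop
    · obtain ⟨m, hm⟩ := Nat.exists_eq_add_of_le' hc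
      exact vInj_of_injAt A.isTerm A.graded hm.symm (A.Z m).isTerm
        (A.sections m c (by omega) hm.symm)
        fun k _ => (A.Z m).injAt_of_pureIn A.one_lt (A.pure m (by omega) (by omega)) k
  have hS : ∀ c : ℕ, c < A.n → VSurj A.T.col A.T.N A.P.deg A.P.L A.T.d c (-((c : ℤ) + 1)) := by
    intro c hc
    obtain ⟨m, hm⟩ := Nat.exists_eq_add_of_le' hc.le
    have h1 := vInj_up W D₁ D₂ (hI (c + 1) hc)
    have h2 := injAt_of_vInj A.isTerm A.graded hm.symm (A.Z m).isTerm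
      (A.sections m c (by omega) hm.symm) h1
    exact vSurj_of_surjAt A.isTerm A.graded hm.symm (A.Z m).isTerm
      (A.sections m c (by omega) hm.symm) fun k =>
        WeightTerm.surj_of_symmetric (A.Z m).isTerm (A.symmetric m (by omega) (by omega)) (h2 k)
  obtain ⟨Q, F⟩ := exists_fitting A.laplace
  have T : IsNull A.T.col A.T.N A.P.N' A.P.deg A.P.L A.P.Λ A.T.d Q :=
    ⟨W, F.idem, F.comm _ W.N_lap, F.comm _ W.N'_lap, F.comm _ W.L_lap, F.comm _ W.L'_lap,
      F.comm _ W.d_lap, F.nil, D₁, D₂⟩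
  have h := T.strong (n := A.n) (fun a s x _ => htop x) hS (fun c hc => hI c hc.le)
    (hasLefschetz A.isTerm A.graded A.dual A.hard)
  intro m x hx
  rw [← F.mem x ⟨m, hx⟩]
  exact h x

end Pool.Agent.H849.PW
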